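import Pool.Agent.N208.CT.Main
import Pool.Agent.R917.DT.Fct

set_option autoImplicit false
set_option linter.unusedSectionVars false

/-!
# Subalgebras which are closed under replicas and the centre
-/

open Module Function TensorProduct Matrix

noncomputable section

namespace Pool.Agent.N208.OU

open Pool.Agent.Y102 Pool.Agent.W516.DR Pool.Agent.H204R3.GP Pool.Agent.W516.KC
  Pool.Agent.H204R3.SP Pool.Agent.TH119.MX Pool.Agent.R917 Pool.Agent.N208.AM Pool.Agent.N208.AD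
  Pool.Agent.N208.BT Pool.Agent.N208.CT Pool.Agent.R917.DT Pool.Agent.R917.EC

section Sig

/-- An additive map with given values. -/
theorem exists_sigma {m : ℕ} {x y : Fin m → ℂ}
    (h : ∀ c : Fin m → ℚ, ∑ i, (c i : ℂ) * x i = 0 → ∑ i, (c i : ℂ) * y i = 0) :
    ∃ σ : ℂ →+ ℂ, ∀ i, σ (x i) = y i := by
  classical
  let fx : (Fin m → ℚ) →ₗ[ℚ] ℂ := Fintype.linearCombination ℚ x
  let fy : (Fin m → ℚ) →ₗ[ℚ] ℂ := Fintype.linearCombination ℚ y
  have hfx : ∀ c, fx c = ∑ i, (c i : ℂ) * x i := fun c => by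
    rw [Fintype.linearCombination_apply]
    exact Finset.sum_congr rfl fun i _ => by rw [Algebra.smul_def]; rfl
  have hfy : ∀ c, fy c = ∑ i, (c i : ℂ) * y i := fun c => by
    rw [Fintype.linearCombination_apply]
    exact Finset.sum_congr rfl fun i _ => by rw [Algebra.smul_def]; rfl
  have hk : LinearMap.ker fx ≤ LinearMap.ker fy := by
    intro c hc
    rw [LinearMap.mem_ker, hfx] at hc
    rw [LinearMap.mem_ker, hfy]
    exact h c hc
  obtain ⟨G, hG⟩ := LinearMap.exists_extend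
    (((LinearMap.ker fx).liftQ fy hk).comp (fx.quotKerEquivRange.symm).toLinearMap)
  refine ⟨G.toAddMonoidHom, fun i => ?_⟩
  have h1 : x i = fx (Pi.single i 1) := by
    change _ = Fintype.linearCombination ℚ x (Pi.single i 1)
    rw [Fintype.linearCombination_apply_single, one_smul]
  have h2 : y i = fy (Pi.single i 1) := by
    change _ = Fintype.linearCombination ℚ y (Pi.single i 1)
    rw [Fintype.linearCombination_apply_single, one_smul]
  have h3 := LinearMap.congr_fun hG ⟨fx (Pi.single i 1), LinearMap.mem_range_self fx _⟩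
  change G (x i) = y i
  rw [h1, h2]
  refine h3.trans ?_
  have h4 : fx.quotKerEquivRange.symm ⟨fx (Pi.single i 1), LinearMap.mem_range_self fx _⟩ =
      (LinearMap.ker fx).mkQ (Pi.single i 1) := by
    rw [LinearEquiv.symm_apply_eq]
    rfl
  change (LinearMap.ker fx).liftQ fy hk (fx.quotKerEquivRange.symm _) = _
  rw [h4]
  rfl

/-- From relations with natural numbers to relations with rational numbers. -/
theorem rel_rat {m : ℕ} {x y : Fin m → ℂ}
    (h : ∀ α β : Fin m → ℕ, ∑ i, (α i : ℂ) * x i = ∑ i, (β i : ℂ) * x i →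
      ∑ i, (α i : ℂ) * y i = ∑ i, (β i : ℂ) * y i) (c : Fin m → ℚ)
    (hc : ∑ i, (c i : ℂ) * x i = 0) : ∑ i, (c i : ℂ) * y i = 0 := by
  classical
  obtain ⟨b, hb⟩ := IsLocalization.exist_integer_multiples_of_finset (nonZeroDivisors ℤ)
    (Finset.univ.image c)
  have hb0 : ((b : ℤ) : ℂ) ≠ 0 := by
    exact_mod_cast nonZeroDivisors.coe_ne_zero b
  have h1 : ∀ i, ∃ a : ℤ, (a : ℂ) = (b : ℤ) * (c i : ℂ) := by
    intro i
    obtain ⟨a, ha⟩ := hb (c i) (Finset.mem_image_of_mem c (Finset.mem_univ i))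
    refine ⟨a, ?_⟩
    have h2 : ((a : ℤ) : ℚ) = ((b : ℤ) : ℚ) * c i := by
      have h3 : algebraMap ℤ ℚ a = (b : ℤ) • c i := ha
      rw [zsmul_eq_mul] at h3
      exact h3
    have h3 := congrArg (fun q : ℚ => (q : ℂ)) h2
    push_cast at h3
    exact h3
  choose a ha using h1
  have h2 : ∀ z : Fin m → ℂ, ∑ i, (((a i).toNat : ℕ) : ℂ) * z i - ∑ i, (((-a i).toNat : ℕ) : ℂ) * z i =
      (b : ℤ) * ∑ i, (c i : ℂ) * z i := by
    intro z
    rw [← Finset.sum_sub_distrib, Finset.mul_sum]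
    refine Finset.sum_congr rfl fun i _ => ?_
    have h3 : (((a i).toNat : ℕ) : ℂ) - (((-a i).toNat : ℕ) : ℂ) = (a i : ℂ) := by
      have h4 := Int.toNat_sub_toNat_neg (a i)
      have h5 := congrArg (fun q : ℤ => (q : ℂ)) h4
      push_cast at h5
      exact h5
    rw [← sub_mul, h3, ha]
    ring
  have h3 := h (fun i => (a i).toNat) (fun i => (-a i).toNat) (by
    rw [← sub_eq_zero, h2 x, hc, mul_zero])
  rw [← sub_eq_zero, h2 y] at h3
  exact (mul_eq_zero.1 h3).resolve_left hb0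

end Sig

variable {g : ℕ} {A : AbVar g}

/-- **Replicas of central elements.** -/
theorem mem_of_dom {𝔥 : Submodule ℚ (Module.End ℚ A.H1)} (hRC : RC 𝔥)
    {X Y : Module.End ℚ A.H1} (hX : X ∈ 𝔥) (hXC : X ∈ A.CN) (hY : Y ∈ A.CN) (hdom : Dom X Y) :
    Y ∈ 𝔥 := by
  classical
  obtain ⟨m, b, χ, hb⟩ := A.exists_basis
  obtain ⟨X', hX'⟩ : ∃ X' : A.ZA, X' = ⟨X, A.CN_le_ZA hXC⟩ := ⟨_, rfl⟩
  obtain ⟨Y', hY'⟩ : ∃ Y' : A.ZA, Y' = ⟨Y, A.CN_le_ZA hY⟩ := ⟨_, rfl⟩
  obtain ⟨σ, hσ⟩ := exists_sigma (x := fun i => χ i X') (y := fun i => χ i Y')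
    (rel_rat fun α β h => rel_of_dom hb (X := X') (Y := Y') (by rw [hX', hY']; exact hdom) α β h)
  obtain ⟨t, htt⟩ : ∃ t : Finset ℂ, t = Finset.univ.image fun i => χ i X' := ⟨_, rfl⟩
  have ht : ∀ i, χ i X' ∈ t := fun i => by
    rw [htt]
    exact Finset.mem_image_of_mem _ (Finset.mem_univ i)
  let Q : Polynomial ℂ := Lagrange.interpolate t id fun a => σ a
  have hQ : ∀ a ∈ t, Q.eval a = σ a := fun a ha =>
    Lagrange.eval_interpolate_at_node (fun a => σ a) (Function.injective_id.injOn) ha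
  have hev : ∀ (P : Polynomial ℂ) (i : Fin m),
      Polynomial.aeval (X.baseChange ℂ : Module.End ℂ (ℂ ⊗[ℚ] A.H1)) P (b i) =
        P.eval (χ i X') • b i := by
    intro P i
    have h1 : Module.End.HasEigenvector (X.baseChange ℂ : Module.End ℂ (ℂ ⊗[ℚ] A.H1))
        (χ i X') (b i) := ⟨Module.End.mem_eigenspace_iff.2 (by
          have h2 := hb i X'
          rw [hX'] at h2 ⊢
          exact h2), b.ne_zero i⟩
    exact Module.End.aeval_apply_of_hasEigenvector h1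
  have hN : Polynomial.aeval (X.baseChange ℂ : Module.End ℂ (ℂ ⊗[ℚ] A.H1))
      (Lagrange.nodal t id) = 0 := by
    refine b.ext fun i => ?_
    have h1 : (Lagrange.nodal t id).eval (χ i X') = 0 := Lagrange.eval_nodal_at_node (v := id) (ht i)
    rw [hev, h1, zero_smul]
    rfl
  have hQY : Polynomial.aeval (X.baseChange ℂ : Module.End ℂ (ℂ ⊗[ℚ] A.H1)) Q =
      Y.baseChange ℂ := by
    refine b.ext fun i => ?_
    rw [hev, hQ _ (ht i), hσ i]
    have h2 := hb i Y'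
    rw [hY'] at h2
    rw [hY']
    exact h2.symm
  have hmat : ∀ P : Polynomial ℂ, Polynomial.aeval (rm X) P =
      (LinearMap.toMatrixAlgEquiv (A.bas.baseChange ℂ)
        (Polynomial.aeval (X.baseChange ℂ : Module.End ℂ (ℂ ⊗[ℚ] A.H1)) P))ᵀ := by
    intro P
    rw [rm_eq, aeval_transpose, ← Pool.Agent.R917.DT.toMatrix_bc, Polynomial.aeval_algHom_apply]
  obtain ⟨lam, hlam⟩ := Pool.Agent.R917.EC.exists_lam1
  refine hRC X hX t ?_ σ Q hQ lam Y ?_
  · rw [hmat, hN, map_zero, Matrix.transpose_zero]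
  · rw [hmat, hQY, Pool.Agent.R917.DT.toMatrix_bc, ← rm_eq]
    ext i j
    rw [Matrix.map_apply, lamF_apply]
    have h1 : ∃ q : ℚ, rm Y i j = (q : ℂ) := ⟨_, rfl⟩
    obtain ⟨q, hq⟩ := h1
    rw [hq, lam_rat hlam]

/-- **The centre is in the subalgebra**, if it is rigid. -/
theorem CN_le {𝔥 : Submodule ℚ (Module.End ℚ A.H1)} (hf : A.Full 𝔥) (hRC : RC 𝔥)
    (hrig : Rigid A) : A.CN ≤ 𝔥 := by
  intro Y hY
  obtain ⟨m, b, χ, hb⟩ := A.exists_basis
  obtain ⟨X, ⟨hX1, hX2⟩, hX⟩ := R918.exists_generic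
    (𝔠 := 𝔥 ⊓ A.CN) (inf_le_right.trans A.CN_le_ZA) χ
  refine mem_of_dom hRC hX1 hX2 hY (hrig X hX2 (fun T hT hTX Z hZ => ?_) Y hY)
  have h0 : ∀ d ∈ der 𝔥, T * d = d * T := by
    intro d hd
    unfold der at hd
    induction hd using Submodule.span_induction with
    | mem z hz =>
      obtain ⟨x, hx, y, hy, rfl⟩ := hz
      exact hT x (hf.le hx) y (hf.le hy)
    | zero => rw [mul_zero, zero_mul]
    | add a b _ _ ha hb => rw [mul_add, add_mul, ha, hb]
    | smul c a _ ha => rw [mul_smul_comm, smul_mul_assoc, ha]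
  have h1 : ∀ Q ∈ 𝔥, Q * T = T * Q := by
    intro Q hQ
    obtain ⟨Z', hZ', d, hd, rfl, hc'⟩ := hf.dec hQ
    have hZC : Z' ∈ A.CN :=
      ⟨hf.le hZ', fun Y hY => hf.comm Z' (fun X hX => (hc' X hX).symm) Y hY⟩
    have e1 : T * Z' = Z' * T :=
      A.comm_of_generic hb (X := X) (R := ⟨Z', A.CN_le_ZA hZC⟩)
        (fun i j hij => hX i j hij ⟨Z', A.CN_le_ZA hZC⟩ ⟨hZ', hZC⟩) hTX
    rw [add_mul, mul_add, e1, h0 d hd]
  exact (hf.comm T h1 Z hZ.1).symm

end Pool.Agent.N208.OU
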