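import Pool.Agent.N208.UR.One

set_option autoImplicit false

/-!
# 1-motives over abelian varieties of unitary type: definitions
-/

open Module Matrix Pool.Agent.Y102 Pool.Agent.R917.OM Pool.Agent.R917.BX Pool.Agent.W516.DR
  Pool.Agent.H204R3.GP Pool.Agent.N208.UR

noncomputable section

namespace Pool.Agent.N208.OneM

section Abelian

variable {g : ℕ} (A : AbVar g)

/-! ### The part of the abelian variety -/

/-- The endomorphisms of `H_1(A, ℚ)`. -/
abbrev EndQ : Type := Module.End ℚ A.H1

/-- `X` and `Y` commute. -/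
def Cm (X Y : EndQ A) : Prop := X * Y = Y * X

/-- The bracket. -/
def Br (X Y : EndQ A) : EndQ A := X * Y - Y * X

/-- The polarization. -/
def form (u v : A.H1) : ℚ := A.om u v

/-- `P` is an endomorphism of `A` (up to isogeny), in terms of its action on `H_1(A, ℚ)`: it respects
the de Rham structure. (By the theorem of Bost, which is proved in `Pool.Agent.Y102.AbVar.hodge_end`,
these are the elements of `End(A) ⊗ ℚ`.) -/
def IsEndo (P : EndQ A) : Prop := IsDeRhamBettiEnd QBar A.dR P

/-- The endomorphism `X` of `H_1(A, ℚ)` commutes with the endomorphisms of `A`. -/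
def Commutes (X : EndQ A) : Prop := ∀ P, IsEndo A P → Cm A X P

/-- `x` is an eigenvector of `z` for the eigenvalue `i a` (or zero); here `H_1(A, ℝ) = ℂ ^ g` is the
tangent space, and `A.ext z` is the real linear extension of `z`. -/
def Eigen (z : EndQ A) (a : ℝ) (x : Fin g → ℂ) : Prop :=
  A.ext z x = ((a : ℂ) * Complex.I) • x

/-- The restriction of the endomorphism `X` to the image of `z` is `q(z)`. -/
def IsPoly (z X : EndQ A) (q : Polynomial ℚ) : Prop :=
  X * z = Polynomial.aeval z q * z

/-- The value `q(i a)` of the polynomial `q`. -/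
def value (a : ℝ) (q : Polynomial ℚ) : ℂ := Polynomial.aeval ((a : ℂ) * Complex.I) q

/-- The algebra generated by the set `T`. -/
def Alg (T : Set (EndQ A)) : Set (EndQ A) := (Algebra.adjoin ℚ T : Set (EndQ A))

/-- **The separation.** If the algebra generated by a set `T` generates together with `z` the algebra of
all endomorphisms which commute with the endomorphisms of `A` (on the image of `z`), then it contains
(on the image of `z`) a polynomial in `z` which separates the numbers `i a` and `i b`. -/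
def Separates (z : EndQ A) (a b : ℝ) : Prop :=
  ∀ T : Set (EndQ A), (∀ X ∈ T, Commutes A X) →
    (∀ X, Commutes A X → ∃ X' ∈ Alg A (T ∪ {z}), X * z = X' * z) →
    ∃ q, ∃ X ∈ Alg A T, IsPoly A z X q ∧ value a q ≠ value b q

/-- `z` is an endomorphism in the centre of the algebra of the endomorphisms, it is skew-symmetric for the
polarization, and the elements of the centre are polynomials in `z` on the image of `z`. -/
structure CentralPart (z : EndQ A) : Prop where
  endo : IsEndo A z
  central : ∀ P, IsEndo A P → Cm A z P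
  skew : ∀ u v, form A (z u) v + form A u (z v) = 0
  generates : ∀ P, IsEndo A P → (∀ Q, IsEndo A Q → Cm A P Q) → ∃ q, IsPoly A z P q

/-- **Signature `(1, n)`**: for all `a ∈ S` the eigenspace of `i a` on the tangent space is a simple
module over the algebra of the endomorphisms; the numbers `± i a`, `a ∈ S`, are separated. -/
structure BallType (z : EndQ A) (S : Finset ℝ) : Prop where
  eigen : ∀ a ∈ S, ∃ x, x ≠ 0 ∧ Eigen A z a x
  simple : ∀ a ∈ S, ∀ x y, x ≠ 0 → Eigen A z a x → Eigen A z a y →
    y ∈ Submodule.span ℂ {w | ∃ P, IsEndo A P ∧ w = A.ext P x}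
  separated : ∀ a b : ℝ, (a ∈ S ∨ -a ∈ S) → (b ∈ S ∨ -b ∈ S) → a ≠ b → Separates A z a b

/-- The commutant of the endomorphisms is a division algebra on the image of `z`: if `X` is not zero on
the image of `z` then it is injective there. -/
def IsDivision (z : EndQ A) : Prop :=
  ∀ X, Commutes A X → (∀ v, X (z v) = 0 → z v = 0) ∨ ∀ v, X (z v) = 0

/-- The commutant of the endomorphisms (restricted to the image of `z`) is of dimension `p ^ 2` over its
centre `ℚ[z]`: the space of the `X z` has dimension `p ^ 2` times the dimension of the space of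
the `q(z) z`. -/
def HasDegree (z : EndQ A) (p : ℕ) : Prop :=
  Set.finrank ℚ {Y | ∃ X, Commutes A X ∧ Y = X * z} =
    p ^ 2 * Set.finrank ℚ {Y | ∃ X q, IsPoly A z X q ∧ Y = X * z}

/-- **Division algebras of prime degree `p`**: `i a` and `- i a` are eigenvalues of `z` on the tangent
space for all `a ∈ S`; the commutant of the endomorphisms is a division algebra of degree `p` over its
centre `ℚ[z]` (on the image of `z`); `± i a` and `± i b` are separated for different `a`, `b` in `S`. -/
structure DivisionType (z : EndQ A) (S : Finset ℝ) (p : ℕ) : Prop where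
  indefinite : ∀ a ∈ S, (∃ x, x ≠ 0 ∧ Eigen A z a x) ∧ ∃ x, x ≠ 0 ∧ Eigen A z (-a) x
  division : IsDivision A z
  prime : p.Prime
  degree : HasDegree A z p
  separated : ∀ a b : ℝ, (a ∈ S ∨ -a ∈ S) → (b ∈ S ∨ -b ∈ S) → a ≠ b → a ≠ -b →
    Separates A z a b

/-- **A unitary part**, with indefinite signatures at the places of the finite set `S`. -/
structure UnitaryPart (z : EndQ A) (S : Finset ℝ) : Prop where
  part : CentralPart A z
  /-- the numbers `i a`, `a ∈ S`, are different from zero and not conjugate to each other -/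
  disjoint : ∀ a ∈ S, a ≠ 0 ∧ -a ∉ S
  type : BallType A z S ∨ ∃ p, DivisionType A z S p

/-! ### The Lie algebra -/

/-- The multilinear forms in `2m` variables in the rational homology. -/
abbrev Form (m : ℕ) : Type := MultilinearMap ℚ (fun _ : Fin m × Fin 2 => A.H1) ℚ

/-- `φ` is a de Rham-Betti class in `H^1(A) ^ {⊗ 2m} (m)`. -/
def IsDRB {m : ℕ} (φ : Form A m) : Prop :=
  IsDeRhamBettiForm QBar A.dR (2 * Real.pi * Complex.I) m φ

/-- `φ` is a Hodge class in `H^1(A) ^ {⊗ 2m} (m)`. -/
def IsHodge {m : ℕ} (φ : Form A m) : Prop := IsHodgeTensor (A.per : A.H1 →+ (Fin g → ℂ)) φ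

/-- The endomorphism `X` annihilates the form `φ` (as a derivation). -/
def Annihilates {m : ℕ} (X : EndQ A) (φ : Form A m) : Prop :=
  ∀ v, ∑ k, φ (Function.update v k (X (v k))) = 0

/-- `X` is in the Lie algebra `𝔤`: it annihilates all classes that are Hodge classes and
de Rham-Betti classes. -/
def InLie (X : EndQ A) : Prop :=
  ∀ (m : ℕ) (φ : Form A m), IsHodge A φ → IsDRB A φ → Annihilates A X φ

/-- The derived algebra `[𝔤, 𝔤]`. -/
def derivedLie : Submodule ℚ (EndQ A) :=
  Submodule.span ℚ {Z | ∃ X, InLie A X ∧ ∃ Y, InLie A Y ∧ Z = Br A X Y}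

/-! ### The centre -/

/-- The algebra of the endomorphisms of `H_1(A, ℂ)`, as matrices for the basis of the lattice. -/
def toC (X : EndQ A) : Matrix (Fin (2 * g)) (Fin (2 * g)) ℂ :=
  Matrix.of fun i j => (X (Pi.single j 1) i : ℂ)

/-- `X` is an element of the centre of `𝔤`. -/
def InCentre (X : EndQ A) : Prop := InLie A X ∧ ∀ Y, InLie A Y → Cm A Y X

/-- The endomorphisms which commute with `X` and with the derived algebra of `𝔤` commute with the
centre of `𝔤`. -/
def Generates (X : EndQ A) : Prop :=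
  ∀ T : EndQ A, (∀ Y, InLie A Y → ∀ Z, InLie A Z → Cm A T (Br A Y Z)) →
    Cm A T X → ∀ Z, InCentre A Z → Cm A T Z

/-- All relations `∑ i, x i = 0` between eigenvalues of `X` imply the relation `∑ i, y i = 0` between
the eigenvalues of `Y` for the same eigenvectors. -/
def RelationsOf (X Y : EndQ A) : Prop :=
  ∀ (r : ℕ) (v : Fin r → Fin (2 * g) → ℂ) (x y : Fin r → ℂ),
    (∀ i, v i ≠ 0 ∧ Matrix.mulVec (toC A X) (v i) = x i • v i ∧
      Matrix.mulVec (toC A Y) (v i) = y i • v i) → ∑ i, x i = 0 → ∑ i, y i = 0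

/-- The centre of `𝔤` is rigid: the relations between the eigenvalues of a generating element of the
centre hold for all elements of the centre. -/
def RigidCentre : Prop :=
  ∀ X, InCentre A X → Generates A X → ∀ Y, InCentre A Y → RelationsOf A X Y

/-! ### Factors, and the condition on the domain -/

/-- `f` is a homomorphism (up to isogeny) from `A` to `C`: it is given by a linear map of the tangent
spaces, and the pull backs of the algebraic differential forms are algebraic. -/
def IsHomomorphism {g' : ℕ} (C : AbVar g') (f : A.H1 →ₗ[ℚ] C.H1) : Prop :=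
  (∃ F : (Fin g → ℂ) →ₗ[ℂ] (Fin g' → ℂ), ∀ w, F (A.per w) = C.per (f w)) ∧
    ∃ e : Fin g' ⊕ Fin g' → Fin g ⊕ Fin g → QBar,
      ∀ i w, C.dR i (f w) = ∑ j, algebraMap QBar ℂ (e i j) * A.dR j w

/-- `A` is a direct factor of `C`, up to isogeny, with the inclusion `f` and the projection `p`. -/
structure IsFactor {g' : ℕ} (C : AbVar g') (f : A.H1 →ₗ[ℚ] C.H1) (p : C.H1 →ₗ[ℚ] A.H1) :
    Prop where
  inclusion : IsHomomorphism A C f
  projection : IsHomomorphism C A p
  split : ∀ w, p (f w) = w

/-- The restriction of an endomorphism of `H_1(C, ℚ)` to the factor. -/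
def restr {g' : ℕ} (C : AbVar g') (f : A.H1 →ₗ[ℚ] C.H1) (p : C.H1 →ₗ[ℚ] A.H1) (X : EndQ C) :
    EndQ A := p.comp (X.comp f)

/-- The part of the Hodge group of `C` which acts trivially on the eigenspaces of `z` for `± i a`,
`a ∈ S`, acts trivially on the Mumford-Tate domain of the factor `A` of `C`: if a real combination
`∑ c_j X_j` of elements `X_j` of the derived algebra `[𝔤, 𝔤]` of the Lie algebra of the Hodge group of
`C` is zero on these eigenspaces, then its restriction to `H_1(A, ℝ) = ℂ ^ g` commutes with the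
multiplication by `i`. -/
def DomainOf {g' : ℕ} (C : AbVar g') (f : A.H1 →ₗ[ℚ] C.H1) (p : C.H1 →ₗ[ℚ] A.H1)
    (z : EndQ C) (S : Finset ℝ) : Prop :=
  ∀ (k : ℕ) (c : Fin k → ℝ) (X : Fin k → EndQ C), (∀ j, X j ∈ derivedLie C) →
    (∀ a ∈ S, ∀ x, Eigen C z a x ∨ Eigen C z (-a) x → ∑ j, c j • C.ext (X j) x = 0) →
      ∀ x, ∑ j, c j • A.ext (restr A C f p (X j)) (Complex.I • x) =
        Complex.I • ∑ j, c j • A.ext (restr A C f p (X j)) x

end Abelian

section Motives

variable {g n s : ℕ} (A : AbVarG g)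

/-! ### 1-motives and their periods -/

/-- The basis of the Betti realization of the 1-motive: the basis `λ_j` of the lattice of `A`, the
basis `γ_l` of `H_1(G_m^s)`, the basis `e_i` of `ℤ^n`. -/
abbrev Betti (g n s : ℕ) : Type := Fin (2 * g) ⊕ (Fin s ⊕ Fin n)

/-- The basis of the de Rham cohomology of the 1-motive: the invariant differentials `d z_k` and the
differentials of the second kind `d h_k` on `A`, the invariant differentials of the third kind `ω_l`
on the semiabelian variety, and a basis for `ℤ^n`. -/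
abbrev DeRham (g n s : ℕ) : Type := (Fin g ⊕ Fin g) ⊕ (Fin s ⊕ Fin n)

/-- The integral of the second kind `h_k = ∂ k (log θ 0)`, with the value zero at the origin. -/
def second (k : Fin g) (z : Fin g → ℂ) : ℂ := pd k (A.θ 0) z / A.θ 0 z - pd k (A.θ 0) 0

/-- The comparison isomorphism of the 1-motive. The rows are the Betti side. -/
def periodMatrix (u : Fin n → Fin g → ℂ) (v : Fin s → Fin g → ℂ) (ℓ : Fin n → Fin s → ℂ) :
    Matrix (Betti g n s) (DeRham g n s) ℂ := Matrix.of fun r c =>
  match r, c with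
  | Sum.inl j, Sum.inl (Sum.inl k) => A.lam j k
  | Sum.inl j, Sum.inl (Sum.inr k) => A.η j k
  | Sum.inl j, Sum.inr (Sum.inl l) => ∑ k, (second A k (v l) * A.lam j k - v l k * A.η j k)
  | Sum.inr (Sum.inl l), Sum.inr (Sum.inl l') => if l = l' then 2 * Real.pi * Complex.I else 0
  | Sum.inr (Sum.inr i), Sum.inl (Sum.inl k) => u i k
  | Sum.inr (Sum.inr i), Sum.inl (Sum.inr k) => second A k (u i)
  | Sum.inr (Sum.inr i), Sum.inr (Sum.inl l) => ℓ i l
  | Sum.inr (Sum.inr i), Sum.inr (Sum.inr i') => if i = i' then 1 else 0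
  | _, _ => 0

/-- The data `u_i, v_l, ℓ_il` of a 1-motive over the algebraic numbers: the points of `A` and of the
dual abelian variety are algebraic, and so are the points of the extension, in terms of the
trivialization by the function `θ(z - v) / (θ(z) θ(-v)) · exp(∑ k, h_k(v) z_k)`. The vectors are
chosen outside of the divisor of the theta function. -/
structure IsOneMotive (u : Fin n → Fin g → ℂ) (v : Fin s → Fin g → ℂ) (ℓ : Fin n → Fin s → ℂ) :
    Prop where
  point : ∀ i, IsPoint A.toAbVar (u i)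
  dual : ∀ l, IsPoint A.toAbVar (v l)
  neg : ∀ l, IsPoint A.toAbVar (-v l)
  sub : ∀ i l, IsPoint A.toAbVar (u i - v l)
  log : ∀ i l, ∃ q : ℂ, IsAlgebraic ℚ q ∧ Complex.exp (ℓ i l) =
    q * (A.θ 0 (u i - v l) / (A.θ 0 (u i) * A.θ 0 (-v l))) *
      Complex.exp (∑ k, second A k (v l) * u i k)

/-! ### Algebraic groups which contain the periods -/

/-- A subgroup of `GL_R(ℂ)` defined by polynomials with rational coefficients. -/
def IsAlgebraicSubgroup {R : Type} [Fintype R] [DecidableEq R] (G : Subgroup (GL R ℂ)) : Prop :=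
  ∃ I : Set (MvPolynomial (R × R) ℚ), ∀ x : GL R ℂ, x ∈ G ↔
    ∀ p ∈ I, MvPolynomial.aeval (fun b : R × R => (x : Matrix R R ℂ) b.1 b.2) p = 0

/-- The comparison isomorphism `c` is an element of a torsor `G · T⁻¹` of `G`, defined over the
algebraic numbers: `T` is a matrix with algebraic entries (an isomorphism between the Betti side and
the de Rham side) such that `c T ∈ G`. -/
def ContainsPeriods (u : Fin n → Fin g → ℂ) (v : Fin s → Fin g → ℂ) (ℓ : Fin n → Fin s → ℂ)
    (G : Subgroup (GL (Betti g n s) ℂ)) : Prop :=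
  ∃ T : Matrix (DeRham g n s) (Betti g n s) ℂ, (∀ i j, IsAlgebraic ℚ (T i j)) ∧
    ∃ x ∈ G, (x : Matrix (Betti g n s) (Betti g n s) ℂ) = periodMatrix A u v ℓ * T

/-! ### The mixed Hodge structure and the Mumford-Tate group -/

/-- The Hodge filtration: the vectors of `H_1(M, ℂ)` (in terms of their coordinates) on which the
invariant differentials of the semiabelian variety vanish. -/
def F0 (u : Fin n → Fin g → ℂ) (v : Fin s → Fin g → ℂ) (ℓ : Fin n → Fin s → ℂ)
    (x : Betti g n s → ℂ) : Prop :=
  (∀ k, ∑ r, x r * periodMatrix A u v ℓ r (Sum.inl (Sum.inl k)) = 0) ∧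
    ∀ l, ∑ r, x r * periodMatrix A u v ℓ r (Sum.inr (Sum.inl l)) = 0

/-- The part of weight `≤ -1` of the homology, the homology of the semiabelian variety. -/
def W1 (x : Betti g n s → ℂ) : Prop := ∀ i, x (Sum.inr (Sum.inr i)) = 0

/-- The part of weight `≤ -2` of the homology, the homology of the torus. -/
def W2 (x : Betti g n s → ℂ) : Prop :=
  (∀ j, x (Sum.inl j) = 0) ∧ ∀ i, x (Sum.inr (Sum.inr i)) = 0

/-- The complex conjugate vector. -/
def bar (x : Betti g n s → ℂ) : Betti g n s → ℂ := fun r => (starRingEnd ℂ) (x r)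

/-- The matrix `M` gives the action of the element `z` of the Deligne torus on the homology of the
1-motive (vectors are rows): it acts by `1` on `I^{0,0} = F^0 ∩ (F̄^0 + W_{-2})`, by `z̄` on
`I^{0,-1} = F^0 ∩ W_{-1}`, by `z` on its complex conjugate `I^{-1,0}` and by `z z̄` on
`I^{-1,-1} = W_{-2}`. -/
structure IsDeligne (u : Fin n → Fin g → ℂ) (v : Fin s → Fin g → ℂ) (ℓ : Fin n → Fin s → ℂ)
    (z : ℂ) (M : Matrix (Betti g n s) (Betti g n s) ℂ) : Prop where
  zero_zero : ∀ x y w, F0 A u v ℓ x → F0 A u v ℓ y → W2 w → x = bar y + w → x ᵥ* M = x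
  zero_neg : ∀ x, F0 A u v ℓ x → W1 x → x ᵥ* M = (starRingEnd ℂ) z • x
  neg_zero : ∀ x, F0 A u v ℓ x → W1 x → bar x ᵥ* M = z • bar x
  neg_neg : ∀ x, W2 x → x ᵥ* M = (z * (starRingEnd ℂ) z) • x

/-- The Mumford-Tate group of the 1-motive: the smallest algebraic group over `ℚ` which contains the
image of the Deligne torus. -/
def mumfordTate (u : Fin n → Fin g → ℂ) (v : Fin s → Fin g → ℂ) (ℓ : Fin n → Fin s → ℂ) :
    Subgroup (GL (Betti g n s) ℂ) :=
  sInf {G | IsAlgebraicSubgroup G ∧ ∀ z : ℂ, z ≠ 0 → ∃ x ∈ G,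
    IsDeligne A u v ℓ z (x : Matrix (Betti g n s) (Betti g n s) ℂ)}

/-! ### The action on the graded pieces -/

/-- The matrices `M` and `M'` act in the same way on the graded pieces of the weight filtration of
the homology, up to the weight cocharacter: `M` acts as `M'` on the part of weight `0`, as `c M'` on
the part of weight `-1` and as `c² M'` on the part of weight `-2`. -/
structure SameGraded (c : ℂ) (M M' : Matrix (Betti g n s) (Betti g n s) ℂ) : Prop where
  weight_zero : ∀ x : Betti g n s → ℂ, W1 (x ᵥ* M - x ᵥ* M')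
  weight_one : ∀ x : Betti g n s → ℂ, W1 x → W2 (x ᵥ* M - c • (x ᵥ* M'))
  weight_two : ∀ x : Betti g n s → ℂ, W2 x → x ᵥ* M = c ^ 2 • (x ᵥ* M')

/-- The matrix `N` gives the action of the element `w` of the Lie algebra of the Deligne torus on the
homology of the 1-motive, the derivative of the action described in `IsDeligne`. -/
structure IsLieDeligne (u : Fin n → Fin g → ℂ) (v : Fin s → Fin g → ℂ) (ℓ : Fin n → Fin s → ℂ)
    (w : ℂ) (N : Matrix (Betti g n s) (Betti g n s) ℂ) : Prop where
  zero_zero : ∀ x y t, F0 A u v ℓ x → F0 A u v ℓ y → W2 t → x = bar y + t → x ᵥ* N = 0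
  zero_neg : ∀ x, F0 A u v ℓ x → W1 x → x ᵥ* N = (starRingEnd ℂ) w • x
  neg_zero : ∀ x, F0 A u v ℓ x → W1 x → bar x ᵥ* N = w • bar x
  neg_neg : ∀ x, W2 x → x ᵥ* N = (w + (starRingEnd ℂ) w) • x

/-- The complex matrix of a rational matrix. -/
def cplx {R : Type} (X : Matrix R R ℚ) : Matrix R R ℂ := X.map fun q => (q : ℂ)

/-- The subspace `L` is a Lie algebra. -/
def IsLieAlgebra {R : Type} [Fintype R] (L : Submodule ℚ (Matrix R R ℚ)) : Prop :=
  ∀ X ∈ L, ∀ Y ∈ L, X * Y - Y * X ∈ L

/-- The derived algebra. -/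
def derived {R : Type} [Fintype R] (L : Submodule ℚ (Matrix R R ℚ)) :
    Submodule ℚ (Matrix R R ℚ) :=
  Submodule.span ℚ {Z | ∃ X ∈ L, ∃ Y ∈ L, Z = X * Y - Y * X}

/-- `N` is in the complex span of `L`. -/
def InSpan {R : Type} (L : Submodule ℚ (Matrix R R ℚ)) (N : Matrix R R ℂ) : Prop :=
  N ∈ Submodule.span ℂ {N : Matrix R R ℂ | ∃ X ∈ L, N = cplx X}

/-- The Lie algebra of the Mumford-Tate group: the smallest Lie algebra of rational matrices whose
complex span contains the Lie algebra of the Deligne torus. -/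
def mtLie (u : Fin n → Fin g → ℂ) (v : Fin s → Fin g → ℂ) (ℓ : Fin n → Fin s → ℂ) :
    Submodule ℚ (Matrix (Betti g n s) (Betti g n s) ℚ) :=
  sInf {L | IsLieAlgebra L ∧ ∀ w : ℂ, ∃ N, InSpan L N ∧ IsLieDeligne A u v ℓ w N}

/-- The matrix `M` is an element of the group `G`. -/
def IsIn {R : Type} [Fintype R] [DecidableEq R] (G : Subgroup (GL R ℂ)) (M : Matrix R R ℂ) : Prop :=
  ∃ x ∈ G, (x : Matrix R R ℂ) = M

end Motives

end Pool.Agent.N208.OneM
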