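import Pool.Agent.N208.OU.Cen

set_option autoImplicit false
set_option linter.unusedSectionVars false

/-!
# The complex structure of a factor is in the subalgebra
-/

open Module Function TensorProduct Matrix

noncomputable section

namespace Pool.Agent.N208.OU

open Pool.Agent.Y102 Pool.Agent.W516.DR Pool.Agent.H204R3.GP Pool.Agent.W516.KC
  Pool.Agent.H204R3.SP Pool.Agent.TH119.MX Pool.Agent.R917 Pool.Agent.N208.AM Pool.Agent.N208.AD
  Pool.Agent.N208.BT Pool.Agent.N208.CT

section Gen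

variable {g : ℕ} {A : AbVar g} {s n : ℕ} {r : Fin s → ℕ} {B : Fin n → Ten A r} {w : Fin s → ℤ}
  {P : Matrix (Fin n) (Fin n) ℂ} {N : Matrix (Fin n) (Fin n) ℝ} {U : Set (Fin g → ℂ)}

/-- The derived part of the complex structure, for a full subalgebra. -/
theorem N_memF (h : Mot w B P) {𝔮 : Submodule ℚ (Module.End ℚ A.H1)} (hq : A.Full 𝔮)
    (hr : RPart A U) (hN : RelR B AbVar.JJ N) {Nc Nd : Matrix (Fin n) (Fin n) ℝ}
    (hNc : Nc ∈ spR B (cenA A : Set (Module.End ℚ A.H1)))
    (hNd : Nd ∈ spR B (der A.NA : Set (Module.End ℚ A.H1))) (hNe : N = Nc + Nd)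
    (hα : DomU U B N) :
    Nd ∈ spR B (der 𝔮 : Set (Module.End ℚ A.H1)) := by
  have hdd : der 𝔮 ≤ der A.NA := by
    unfold der
    exact Submodule.span_mono fun _ ⟨X, hX, Y, hY, e⟩ => ⟨X, hq.le hX, Y, hq.le hY, e⟩
  have hdN : der 𝔮 ≤ A.NA := fun Z hZ => der_NA_le (hdd hZ)
  have hdb : ∀ X ∈ der 𝔮, ∀ Y ∈ der 𝔮, X * Y - Y * X ∈ der 𝔮 := fun X hX Y hY =>
    Submodule.subset_span ⟨X, hq.der_le hX, Y, hq.der_le hY, rfl⟩
  have hle : spR B (der A.NA : Set (Module.End ℚ A.H1)) ≤
      spR B (A.NA : Set (Module.End ℚ A.H1)) := spR_mono der_NA_le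
  have hnm : nU B U ≤ spR B (der A.NA : Set (Module.End ℚ A.H1)) := by
    rintro _ ⟨p, hp, -, rfl⟩
    exact pR_snd hp
  refine N113.BT.mem_of_sup (dat h hN hNc hNd hNe) (spR_mono hdd) (spR_br hdb) hnm ?_ ?_ ?_
  · rintro x hx z ⟨p, hp, h1, rfl⟩
    induction hx using Submodule.span_induction with
    | mem x hx =>
      obtain ⟨X, hX, M, hM, rfl⟩ := hx
      refine ⟨_, pR_br h hX hM hp, fun u hu => ?_, rfl⟩
      rw [LinearMap.sub_apply, Module.End.mul_apply, Module.End.mul_apply, h1 u hu,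
        h1 _ (hr.stab X (der_NA_le hX) u hu), map_zero, sub_zero]
    | zero => rw [LinearMap.map_zero₂]; exact Submodule.zero_mem _
    | add a b _ _ ha hb => rw [LinearMap.map_add₂]; exact Submodule.add_mem _ ha hb
    | smul c a _ ha => rw [LinearMap.map_smul₂]; exact Submodule.smul_mem _ _ ha
  · intro z hz
    have h2 : RLie.br N z = 0 := by
      obtain ⟨p, hp, h1, rfl⟩ := hz
      rw [RLie.br_apply, hα p hp h1, sub_self]
    rw [hNe, LinearMap.map_add₂, cenA_br h hNc (hle (hnm hz)), zero_add] at h2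
    exact h2
  · rw [spR, Submodule.span_le]
    rintro _ ⟨X, hX, M, hM, rfl⟩
    obtain ⟨y, hy, h1⟩ := hr.der _ hq _ (mem_spE (S := (der A.NA : Set (Module.End ℚ A.H1))) hX)
    obtain ⟨y', hy'⟩ := exists_pR h hdN hy
    have h2 : ((A.ext X, rq M) : Module.End ℝ (Fin g → ℂ) × Matrix (Fin n) (Fin n) ℝ) ∈
        pR B (der A.NA) := Submodule.subset_span ⟨X, hX, M, hM, rfl⟩
    have h3 := Submodule.sub_mem _ h2 (pR_mono hdd hy')
    have h4 : rq M = y' + (rq M - y') := by abel
    change rq M ∈ _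
    rw [h4]
    refine Submodule.add_mem_sup (pR_snd hy') ⟨_, h3, fun u hu => ?_, rfl⟩
    change (A.ext X - y) u = 0
    rw [LinearMap.sub_apply, h1 u hu, sub_self]

/-- **The complex structure** for a full subalgebra which contains the centre. -/
theorem N_memC (h : Mot w B P) {𝔮 : Submodule ℚ (Module.End ℚ A.H1)} (hq : A.Full 𝔮)
    (hc : A.CN ≤ 𝔮) (hr : RPart A U) (hN : RelR B AbVar.JJ N) (hα : DomU U B N) :
    N ∈ spR B (𝔮 : Set (Module.End ℚ A.H1)) := by
  obtain ⟨N', hN', t, X, M, h1, h2⟩ := exists_J h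
  have h3 : N = N' := hN.uniq h.li hN'
  subst h3
  have h4 : N ∈ spR B (A.NA : Set (Module.End ℚ A.H1)) := by
    rw [h2]
    exact Submodule.sum_mem _ fun k _ => Submodule.smul_mem _ _ (mem_spR (h1 k).1 (h1 k).2)
  obtain ⟨Nc, hNc, Nd, hNd, hNe⟩ := exists_dec h h4
  have h5 := N_memF h hq hr hN hNc hNd hNe hα
  rw [hNe]
  refine Submodule.add_mem _ (spR_mono ?_ hNc) (spR_mono hq.der_le h5)
  rw [cenA_eq]
  exact hc

end Gen

section Fac

open Pool.Agent.R917.DT

variable {g g' : ℕ} {A : AbVar g} {C : AbVar g'} {f : A.H1 →ₗ[ℚ] C.H1} {p : C.H1 →ₗ[ℚ] A.H1}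

/-- The coordinates on the factor, as forms on the large abelian variety. -/
def hB (p : C.H1 →ₗ[ℚ] A.H1) : Fin (2 * g) → Ten C (fun _ : Fin 1 => 1) := fun a _ =>
  MultilinearMap.ofSubsingleton ℚ C.H1 ℚ (0 : Fin 1) ((LinearMap.proj a).comp p)

theorem hB_apply (a : Fin (2 * g)) (i : Fin 1) (v : Fin 1 → C.H1) : hB p a i v = p (v 0) a := rfl

/-- The matrix of a real endomorphism, for the basis of the lattice. -/
def NR (A : AbVar g) (Y : Module.End ℝ (Fin g → ℂ)) (N : Matrix (Fin (2 * g)) (Fin (2 * g)) ℝ) :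
    Prop := ∀ x a, A.lam.repr (Y x) a = ∑ b, N b a * A.lam.repr x b

theorem NR.uniq {Y Y' : Module.End ℝ (Fin g → ℂ)} {N : Matrix (Fin (2 * g)) (Fin (2 * g)) ℝ}
    (h : NR A Y N) (h' : NR A Y' N) : Y = Y' := by
  refine LinearMap.ext fun x => ?_
  apply A.lam.repr.injective
  ext a
  rw [h, h']

theorem NR.add {Y Y' : Module.End ℝ (Fin g → ℂ)} {N N' : Matrix (Fin (2 * g)) (Fin (2 * g)) ℝ}
    (h : NR A Y N) (h' : NR A Y' N') : NR A (Y + Y') (N + N') := by
  intro x a
  rw [LinearMap.add_apply, map_add, Finsupp.add_apply, h, h', ← Finset.sum_add_distrib]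
  exact Finset.sum_congr rfl fun b _ => by rw [Matrix.add_apply, add_mul]

theorem NR.zero : NR A (0 : Module.End ℝ (Fin g → ℂ)) 0 := by
  intro x a
  rw [LinearMap.zero_apply, map_zero, Finsupp.zero_apply]
  exact (Finset.sum_eq_zero fun b _ => by rw [Matrix.zero_apply, zero_mul]).symm

theorem NR.smul {Y : Module.End ℝ (Fin g → ℂ)} {N : Matrix (Fin (2 * g)) (Fin (2 * g)) ℝ} (c : ℝ)
    (h : NR A Y N) : NR A (c • Y) (c • N) := by
  intro x a
  rw [LinearMap.smul_apply, map_smul, Finsupp.smul_apply, h, smul_eq_mul, Finset.mul_sum]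
  exact Finset.sum_congr rfl fun b _ => by rw [Matrix.smul_apply, smul_eq_mul, mul_assoc]

theorem cmpE_mem {𝔥 : Submodule ℚ (Module.End ℚ A.H1)} {Y : Module.End ℝ (Fin g → ℂ)}
    (hY : Y ∈ spE A (𝔥 : Set (Module.End ℚ A.H1))) : ∀ r : ℝ →ₗ[ℚ] ℚ, A.cmpE r Y ∈ 𝔥 := by
  induction hY using Submodule.span_induction with
  | mem Y hY =>
    obtain ⟨X, hX, rfl⟩ := hY
    intro r
    have h1 : A.cmpE r (A.ext X) = r 1 • X := by
      refine LinearMap.ext fun w => ?_
      rw [AbVar.cmpE_apply, A.ext_apply]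
      have h2 := A.cmp_smul_per r 1 (X w)
      rw [one_smul] at h2
      rw [h2]
      rfl
    rw [h1]
    exact 𝔥.smul_mem _ hX
  | zero =>
    intro r
    have h1 : A.cmpE r (0 : Module.End ℝ (Fin g → ℂ)) = 0 := by
      refine LinearMap.ext fun w => ?_
      rw [AbVar.cmpE_apply]
      change A.cmp r 0 = 0
      rw [map_zero]
    rw [h1]
    exact 𝔥.zero_mem
  | add Y Y' _ _ h h' =>
    intro r
    have h1 : A.cmpE r (Y + Y') = A.cmpE r Y + A.cmpE r Y' := by
      refine LinearMap.ext fun w => ?_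
      rw [LinearMap.add_apply, AbVar.cmpE_apply, AbVar.cmpE_apply, AbVar.cmpE_apply,
        LinearMap.add_apply, map_add]
    rw [h1]
    exact 𝔥.add_mem (h r) (h' r)
  | smul c Y _ h =>
    intro r
    have h1 : A.cmpE r (c • Y) = A.cmpE (r.comp (LinearMap.mulLeft ℚ c)) Y := by
      refine LinearMap.ext fun w => ?_
      rw [AbVar.cmpE_apply, AbVar.cmpE_apply, LinearMap.smul_apply]
      funext j
      rw [AbVar.cmp_apply, AbVar.cmp_apply, map_smul, Finsupp.smul_apply]
      rfl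
    rw [h1]
    exact h _

/-- The equivalence between the two sets of indices. -/
def eqv (g : ℕ) : Fin (2 * g) ≃ Fin g ⊕ Fin g :=
  (finCongr (two_mul g)).trans finSumFinEquiv.symm

/-- The periods of the factor. -/
def PP (A : AbVar g) : Matrix (Fin (2 * g)) (Fin (2 * g)) ℂ :=
  Matrix.of fun b a => A.dR (eqv g a) (A.bas b)

theorem PP_sum (a : Fin (2 * g)) (x : A.H1) :
    ∑ b, PP A b a * (x b : ℂ) = A.dR (eqv g a) x := by
  have h1 : x = ∑ b, x b • A.bas b := by
    conv_lhs => rw [← A.bas.sum_repr x]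
    rfl
  conv_rhs => rw [h1]
  rw [map_sum]
  refine Finset.sum_congr rfl fun b _ => ?_
  rw [map_smul, Algebra.smul_def, mul_comm]
  rfl

theorem PP_det : (PP A).det ≠ 0 := by
  intro h
  obtain ⟨v, hv0, hv⟩ := Matrix.exists_mulVec_eq_zero_iff.2 h
  apply hv0
  have h1 : ∑ j, v ((eqv g).symm j) • A.basis j = 0 := by
    refine A.bas.ext fun b => ?_
    rw [LinearMap.sum_apply, LinearMap.zero_apply]
    have h2 := congrFun hv b
    rw [Pi.zero_apply] at h2
    rw [← h2]
    change _ = ∑ a, PP A b a * v a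
    rw [← (eqv g).sum_comp fun j => (v ((eqv g).symm j) • A.basis j) (A.bas b)]
    refine Finset.sum_congr rfl fun a _ => ?_
    rw [Equiv.symm_apply_apply, LinearMap.smul_apply, A.coe_basis, smul_eq_mul, mul_comm]
    rfl
  have h2 := Fintype.linearIndependent_iff.1 A.basis.linearIndependent
    (fun j => v ((eqv g).symm j)) h1
  funext a
  have h3 := h2 (eqv g a)
  rw [Equiv.symm_apply_apply] at h3
  exact h3

/-- The factor as a motive over the large abelian variety. -/
theorem mot (h : Fac A C f p) : Mot (fun _ : Fin 1 => (0 : ℤ)) (hB p) (PP A) where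
  li := by
    refine Fintype.linearIndependent_iff.2 fun c hc a => ?_
    have h1 : (∑ b, c b • hB p b) 0 (fun _ => f (Pi.single a 1)) = 0 := by
      rw [hc]
      rfl
    have h2 : (∑ b, c b • hB p b) 0 (fun _ => f (Pi.single a 1)) =
        ∑ b, c b * (Pi.single a 1 : Fin (2 * g) → ℚ) b := by
      rw [Finset.sum_apply, _root_.sum_apply]
      refine Finset.sum_congr rfl fun b _ => ?_
      change c b * (p (f (Pi.single a 1)) : Fin (2 * g) → ℚ) b = _
      rw [h.pf]
    rw [h2, Finset.sum_eq_single a] at h1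
    · rw [Pi.single_eq_same, mul_one] at h1
      exact h1
    · intro b _ hb
      rw [Pi.single_eq_of_ne hb, mul_zero]
    · intro h0
      exact absurd (Finset.mem_univ a) h0
  st := fun X hX => by
    refine ⟨(LinearMap.toMatrix' (rs f p X : (Fin (2 * g) → ℚ) →ₗ[ℚ] (Fin (2 * g) → ℚ)))ᵀ,
      fun a i => MultilinearMap.ext fun v => ?_⟩
    rw [dact_apply, _root_.sum_apply]
    have h1 : ∀ k : Fin 1, hB p a i (update v k (X (v k))) = p (X (v 0)) a := by
      intro k
      rw [hB_apply, Subsingleton.elim k 0, update_self]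
    change ∑ k : Fin 1, hB p a i (update v k (X (v k))) = _
    rw [Finset.sum_congr rfl fun k _ => h1 k, Finset.sum_const, Finset.card_univ,
      Fintype.card_fin, one_smul]
    have h2 : p (X (v 0)) = rs f p X (p (v 0)) := by
      rw [rs_apply]
      have h3 := congrArg (fun T : Module.End ℚ C.H1 => T (v 0)) (C.NA_comm hX h.mem_EA)
      change X (f (p (v 0))) = f (p (X (v 0))) at h3
      rw [h3, h.pf]
    rw [h2]
    have h3 := LinearMap.toMatrix'_mulVec
      (rs f p X : (Fin (2 * g) → ℚ) →ₗ[ℚ] (Fin (2 * g) → ℚ)) (p (v 0))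
    have h4 := congrFun h3 a
    change _ = (rs f p X (p (v 0)) : Fin (2 * g) → ℚ) a at h4
    rw [← h4]
    change ∑ b, LinearMap.toMatrix'
      (rs f p X : (Fin (2 * g) → ℚ) →ₗ[ℚ] (Fin (2 * g) → ℚ)) a b * (p (v 0) : Fin (2 * g) → ℚ) b = _
    refine Finset.sum_congr rfl fun b _ => ?_
    rw [_root_.smul_apply, hB_apply, Matrix.transpose_apply, smul_eq_mul]
  wt := by
    refine ⟨1, fun a i => ?_⟩
    have h1 : ∑ b, (1 : Matrix (Fin (2 * g)) (Fin (2 * g)) ℚ) b a • hB p b i = hB p a i := by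
      rw [Finset.sum_eq_single a]
      · rw [Matrix.one_apply_eq, one_smul]
      · intro b _ hb
        rw [Matrix.one_apply_ne hb, zero_smul]
      · intro h0
        exact absurd (Finset.mem_univ a) h0
    rw [h1]
    norm_num
  det := PP_det
  dR := by
    obtain ⟨e, he⟩ := h.hp.algebraic
    refine ⟨fun a _ J => algebraMap QBar ℂ (e (eqv g a) (J 0)), fun a i J => ?_, fun a i v => ?_⟩
    · exact QBar.alg _
    · rw [zpow_zero, one_mul]
      have h1 : ∑ b, PP A b a * (hB p b i v : ℂ) = A.dR (eqv g a) (p (v 0)) := by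
        rw [← PP_sum]
        rfl
      rw [h1, he]
      refine Fintype.sum_equiv (Equiv.funUnique (Fin 1) _) _ _ fun J => ?_
      rw [Fin.prod_univ_one]
      rfl

end Fac

end Pool.Agent.N208.OU
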