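import Pool.Agent.N208.OU.Fct
import Pool.Agent.N208.UR.One

set_option autoImplicit false
set_option linter.unusedSectionVars false

/-!
# 1-motives: the derived algebra of the Lie algebra of the Mumford-Tate group
-/

open Module Function TensorProduct Matrix

noncomputable section

namespace Pool.Agent.N208.OU

open Pool.Agent.Y102 Pool.Agent.W516.DR Pool.Agent.H204R3.GP Pool.Agent.W516.KC
  Pool.Agent.H204R3.SP Pool.Agent.TH119.MX Pool.Agent.R917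

section Fac

open Pool.Agent.N208.AM Pool.Agent.N208.AD Pool.Agent.N208.BT Pool.Agent.N208.CT
  Pool.Agent.R917.DT

variable {g g' : ℕ} {A : AbVar g} {C : AbVar g'} {f : A.H1 →ₗ[ℚ] C.H1} {p : C.H1 →ₗ[ℚ] A.H1}
  {𝔮 : Submodule ℚ (Module.End ℚ C.H1)}

/-- The restrictions of the centre and of the derived algebra. -/
def ZZ (f : A.H1 →ₗ[ℚ] C.H1) (p : C.H1 →ₗ[ℚ] A.H1) (𝔮 : Submodule ℚ (Module.End ℚ C.H1)) :
    Submodule ℚ (Module.End ℚ A.H1) := C.CN.map (rs f p) ⊔ (der 𝔮).map (rs f p)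

theorem der_le' (hq : C.Full 𝔮) : der 𝔮 ≤ C.NA := fun _ hX => hq.le (hq.der_le hX)

theorem ZZ_NA (h : Fac A C f p) (hq : C.Full 𝔮) : ZZ f p 𝔮 ≤ A.NA := by
  refine sup_le ?_ ?_
  · rintro _ ⟨X, hX, rfl⟩
    exact h.rs_NA hX.1
  · rintro _ ⟨X, hX, rfl⟩
    exact h.rs_NA (der_le' hq hX)

theorem mem_ZZ {Z : Module.End ℚ A.H1} (hZ : Z ∈ ZZ f p 𝔮) :
    ∃ c ∈ C.CN, ∃ d ∈ der 𝔮, Z = rs f p (c + d) := by
  obtain ⟨_, ⟨c, hc, rfl⟩, _, ⟨d, hd, rfl⟩, rfl⟩ := Submodule.mem_sup.1 hZ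
  exact ⟨c, hc, d, hd, (map_add _ _ _).symm⟩

theorem ZZ_br (h : Fac A C f p) (hq : C.Full 𝔮) {X Y : Module.End ℚ A.H1} (hX : X ∈ ZZ f p 𝔮)
    (hY : Y ∈ ZZ f p 𝔮) : X * Y - Y * X ∈ (der 𝔮).map (rs f p) := by
  obtain ⟨c, hc, d, hd, rfl⟩ := mem_ZZ hX
  obtain ⟨c', hc', d', hd', rfl⟩ := mem_ZZ hY
  have h1 : c + d ∈ C.NA := C.NA.add_mem hc.1 (der_le' hq hd)
  have h2 : c' + d' ∈ C.NA := C.NA.add_mem hc'.1 (der_le' hq hd')
  rw [← h.rs_mul h2, ← h.rs_mul h1, ← map_sub]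
  refine Submodule.mem_map_of_mem ?_
  have e1 : (c + d) * (c' + d') - (c' + d') * (c + d) = d * d' - d' * d := by
    have e2 : c * c' = c' * c := (hc.2 c' hc'.1).symm
    have e3 : c * d' = d' * c := (hc.2 d' (der_le' hq hd')).symm
    have e4 : c' * d = d * c' := (hc'.2 d (der_le' hq hd)).symm
    rw [add_mul, mul_add, mul_add, add_mul, mul_add, mul_add, e2, e3, e4]
    abel
  rw [e1]
  exact Submodule.subset_span ⟨d, hq.der_le hd, d', hq.der_le hd', rfl⟩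

/-- The components of the complex structure, without a condition on the centre. -/
theorem ZZ_J (h : Fac A C f p) (hq : C.Full 𝔮) {U : Set (Fin g' → ℂ)} (hr : RPart C U)
    (hα : ∀ N, RelR (hB p) (AbVar.JJ : (Fin g' → ℂ) →ₗ[ℝ] (Fin g' → ℂ)) N → DomU U (hB p) N)
    (r : ℝ →ₗ[ℚ] ℚ) : A.cmpE r AbVar.JJ ∈ ZZ f p 𝔮 := by
  obtain ⟨N, hN, t, X, M, h1, h2⟩ := exists_J (mot h)
  have h4 : N ∈ spR (hB p) (C.NA : Set (Module.End ℚ C.H1)) := by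
    rw [h2]
    exact Submodule.sum_mem _ fun k _ => Submodule.smul_mem _ _ (mem_spR (h1 k).1 (h1 k).2)
  obtain ⟨Nc, hNc, Nd, hNd, hNe⟩ := exists_dec (mot h) h4
  have h5 := N_memF (mot h) hq hr hN hNc hNd hNe (hα N hN)
  rw [cenA_eq] at hNc
  obtain ⟨Yc, hYc, hYc'⟩ := exists_NR h (𝔥 := ZZ f p 𝔮) (𝔮 := C.CN)
    (fun X hX => Submodule.mem_sup_left (Submodule.mem_map_of_mem hX)) hNc
  obtain ⟨Yd, hYd, hYd'⟩ := exists_NR h (𝔥 := ZZ f p 𝔮) (𝔮 := der 𝔮)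
    (fun X hX => Submodule.mem_sup_right (Submodule.mem_map_of_mem hX)) h5
  have h6 := hYc'.add hYd'
  rw [← hNe] at h6
  have h7 := cmpE_mem (Submodule.add_mem _ hYc hYd) r
  rwa [h6.uniq (NR_JJ h hN)] at h7

end Fac

section One

open Pool.Agent.R917.OM Pool.Agent.R917.BX Pool.Agent.N208.UR

variable {g : ℕ} {A : AbVarG g} {n s : ℕ} {d : Dt g n s}
  {H : Set (Matrix (RI g n s) (RI g n s) ℂ)}

theorem cqm_inj {B : Type} [Fintype B] [DecidableEq B] {M N : Matrix B B ℚ} (h : cqm M = cqm N) : M = N := by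
  ext i j
  have h1 := congrFun (congrFun h i) j
  rw [cqm_apply, cqm_apply] at h1
  exact_mod_cast h1

/-- The rational elements of the Lie algebra of the group, as matrices. -/
def gQ (A : AbVarG g) (n s : ℕ) (H : Set (Matrix (RI g n s) (RI g n s) ℂ)) :
    Submodule ℚ (Matrix (RI g n s) (RI g n s) ℚ) where
  carrier := {X | ∃ L ∈ gg A.toAbVar n s H, mtQ L = X}
  zero_mem' := ⟨0, Submodule.zero_mem _, mtQ_zero⟩
  add_mem' := by
    rintro _ _ ⟨L, hL, rfl⟩ ⟨L', hL', rfl⟩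
    exact ⟨L + L', Submodule.add_mem _ hL hL', mtQ_add _ _⟩
  smul_mem' := by
    rintro c _ ⟨L, hL, rfl⟩
    exact ⟨c • L, Submodule.smul_mem _ c hL, mtQ_smul _ _⟩

/-- The rational elements which act by weights on the graded pieces. -/
def sQ (A : AbVarG g) (n s : ℕ) (H : Set (Matrix (RI g n s) (RI g n s) ℂ)) :
    Submodule ℚ (Matrix (RI g n s) (RI g n s) ℚ) where
  carrier := {X | ∃ L ∈ gg A.toAbVar n s H, L.1 = 0 ∧ mtQ L = X}
  zero_mem' := ⟨0, Submodule.zero_mem _, rfl, mtQ_zero⟩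
  add_mem' := by
    rintro _ _ ⟨L, hL, h1, rfl⟩ ⟨L', hL', h1', rfl⟩
    exact ⟨L + L', Submodule.add_mem _ hL hL', by rw [Prod.fst_add, h1, h1', add_zero],
      mtQ_add _ _⟩
  smul_mem' := by
    rintro c _ ⟨L, hL, h1, rfl⟩
    exact ⟨c • L, Submodule.smul_mem _ c hL, by rw [Prod.smul_fst, h1, smul_zero],
      mtQ_smul _ _⟩

theorem sQ_le : sQ A n s H ≤ gQ A n s H := fun _ ⟨L, hL, _, h⟩ => ⟨L, hL, h⟩

/-- The normalizer of `sQ`, with a condition on the abelian part. -/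
def LL (A : AbVarG g) (n s : ℕ) (H : Set (Matrix (RI g n s) (RI g n s) ℂ))
    (Z : Submodule ℚ (Module.End ℚ A.H1)) :
    Submodule ℚ (Matrix (RI g n s) (RI g n s) ℚ) where
  carrier := {X | (∃ L : Tup A.toAbVar n s, L.1 ∈ Z ∧ mtQ L = X) ∧
    ∀ N ∈ sQ A n s H, X * N - N * X ∈ sQ A n s H}
  zero_mem' := ⟨⟨0, Submodule.zero_mem _, mtQ_zero⟩, fun N _ => by
    rw [Matrix.zero_mul, Matrix.mul_zero, sub_zero]
    exact Submodule.zero_mem _⟩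
  add_mem' := by
    rintro _ _ ⟨⟨L, hL, rfl⟩, h⟩ ⟨⟨L', hL', rfl⟩, h'⟩
    refine ⟨⟨L + L', Submodule.add_mem _ hL hL', mtQ_add _ _⟩, fun N hN => ?_⟩
    have h1 := Submodule.add_mem _ (h N hN) (h' N hN)
    convert h1 using 1
    rw [Matrix.add_mul, Matrix.mul_add]
    abel
  smul_mem' := by
    rintro c _ ⟨⟨L, hL, rfl⟩, h⟩
    refine ⟨⟨c • L, Submodule.smul_mem _ c hL, mtQ_smul _ _⟩, fun N hN => ?_⟩
    rw [Matrix.smul_mul, Matrix.mul_smul, ← smul_sub]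
    exact Submodule.smul_mem _ c (h N hN)

variable {Z : Submodule ℚ (Module.End ℚ A.H1)}

theorem LL_brr (hZ : Z ≤ A.NA) {X Y : Matrix (RI g n s) (RI g n s) ℚ} (hX : X ∈ LL A n s H Z)
    (hY : Y ∈ LL A n s H Z) {Z' : Submodule ℚ (Module.End ℚ A.H1)}
    (hbr : ∀ x ∈ Z, ∀ y ∈ Z, x * y - y * x ∈ Z') : X * Y - Y * X ∈ LL A n s H Z' := by
  obtain ⟨⟨L, hL, rfl⟩, h⟩ := hX
  obtain ⟨⟨L', hL', rfl⟩, h'⟩ := hY
  refine ⟨⟨br L' L, hbr _ hL' _ hL, ?_⟩, fun N hN => ?_⟩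
  · rw [mtQ_br (A.NA_skew (hZ hL')) (A.NA_skew (hZ hL))]
  · have h1 := Submodule.sub_mem _ (h _ (h' N hN)) (h' _ (h N hN))
    convert h1 using 1
    noncomm_ring

/-- The unipotent elements. -/
theorem unip_gQ {W X : Matrix (RI g n s) (RI g n s) ℚ} (hW : W ∈ sQ A n s H)
    (hW1 : cqm W - DD (lev g n s) ∈ Fl (lev g n s) 1) (hgb : ∀ x ∈ gQ A n s H, ∀ y ∈ gQ A n s H,
      x * y - y * x ∈ gQ A n s H) (hX : cqm X ∈ Fl (lev g n s) 1)
    (hn : X * W - W * X ∈ gQ A n s H) : X ∈ gQ A n s H := by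
  have h5 := log_eq (lev_le (g := g) (n := n) (s := s)) hW1 hX
  have h6 : X = (2 : ℚ)⁻¹ • ((3 : ℚ) • (X * W - W * X) -
      ((X * W - W * X) * W - W * (X * W - W * X))) := by
    apply cqm_inj
    rw [cqm_smul, cqm_sub, cqm_smul, cqm_sub, cqm_sub, cqm_mul, cqm_mul, cqm_mul, cqm_mul, cqm_sub,
      cqm_mul, cqm_mul]
    push_cast
    rw [← h5, smul_smul]
    norm_num
  rw [h6]
  refine Submodule.smul_mem _ _ (Submodule.sub_mem _ (Submodule.smul_mem _ _ hn) ?_)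
  exact hgb _ hn _ (sQ_le hW)

/-- **The elements of the normalizer whose abelian part is in the image.** -/
theorem LL_gQ (hLg : Lg (gg A.toAbVar n s H) d) {W : Tup A.toAbVar n s}
    (hW : W ∈ gg A.toAbVar n s H) (hW1 : W.1 = 0) (hW2 : W.2.1 = 1)
    {Z' : Submodule ℚ (Module.End ℚ A.H1)} (hZ' : Z' ≤ aa (gg A.toAbVar n s H))
    {X : Matrix (RI g n s) (RI g n s) ℚ} (hX : X ∈ LL A n s H Z') : X ∈ gQ A n s H := by
  obtain ⟨⟨L, hL, rfl⟩, h⟩ := hX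
  obtain ⟨L₀, hL₀, h0⟩ := hZ' hL
  have h0' : L₀.1 = L.1 := h0
  have hgb : ∀ x ∈ gQ A n s H, ∀ y ∈ gQ A n s H, x * y - y * x ∈ gQ A n s H := by
    rintro _ ⟨x, hx, rfl⟩ _ ⟨y, hy, rfl⟩
    refine ⟨br y x, hLg.br _ hy _ hx, ?_⟩
    rw [mtQ_br (A.NA_skew (hLg.na _ hy)) (A.NA_skew (hLg.na _ hx))]
  have hWs : mtQ W ∈ sQ A n s H := ⟨W, hW, hW1, rfl⟩
  have hWF : cqm (mtQ W) - DD (lev g n s) ∈ Fl (lev g n s) 1 := by
    have h1 := mt_Fl W hW1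
    rwa [hW2, Rat.cast_one, one_smul] at h1
  -- the difference
  obtain ⟨D, hD⟩ : ∃ D : Tup A.toAbVar n s, D = L - L₀ - (L.2.1 - L₀.2.1) • W := ⟨_, rfl⟩
  have hD1 : D.1 = 0 := by
    rw [hD]
    change L.1 - L₀.1 - (L.2.1 - L₀.2.1) • W.1 = 0
    rw [h0', hW1, smul_zero, sub_zero, sub_self]
  have hD2 : D.2.1 = 0 := by
    rw [hD]
    change L.2.1 - L₀.2.1 - (L.2.1 - L₀.2.1) * W.2.1 = 0
    rw [hW2, mul_one, sub_self]
  have hDF : cqm (mtQ D) ∈ Fl (lev g n s) 1 := by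
    have h1 := mt_Fl D hD1
    rwa [hD2, Rat.cast_zero, zero_smul, sub_zero] at h1
  have hDe : mtQ D = mtQ L - mtQ L₀ - (L.2.1 - L₀.2.1) • mtQ W := by
    have e1 : D + L₀ + (L.2.1 - L₀.2.1) • W = L := by
      rw [hD]
      abel
    have e2 := congrArg mtQ e1
    rw [mtQ_add, mtQ_add, mtQ_smul] at e2
    rw [← e2]
    abel
  have hL₀g : mtQ L₀ ∈ gQ A n s H := ⟨L₀, hL₀, rfl⟩
  have h1 : mtQ D ∈ gQ A n s H := by
    refine unip_gQ hWs hWF hgb hDF ?_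
    have e1 : mtQ D * mtQ W - mtQ W * mtQ D = (mtQ L * mtQ W - mtQ W * mtQ L) -
        (mtQ L₀ * mtQ W - mtQ W * mtQ L₀) := by
      rw [hDe]
      simp only [Matrix.sub_mul, Matrix.mul_sub, Matrix.smul_mul, Matrix.mul_smul]
      abel
    rw [e1]
    exact Submodule.sub_mem _ (sQ_le (h _ hWs)) (hgb _ hL₀g _ (sQ_le hWs))
  have h2 : mtQ L = mtQ D + mtQ L₀ + (L.2.1 - L₀.2.1) • mtQ W := by
    rw [hDe]
    abel
  rw [h2]
  exact Submodule.add_mem _ (Submodule.add_mem _ h1 hL₀g)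
    (Submodule.smul_mem _ _ (sQ_le hWs))

/-- The components of the Hodge structure are in the normalizer. -/
theorem exists_LL (hpt : PtM A.toAbVar d H) (hd : Good A d)
    {K₁ : IntermediateField ℚ ℂ} [FiniteDimensional ℚ K₁]
    (hu : ∀ p (m : ℕ), IsRat A.toAbVar K₁ (m • pt d p))
    (hJ : ∀ r, A.cmpE r AbVar.JJ ∈ Z) (lam : ℂ →ₗ[ℚ] ℚ) :
    mtQ (tJ A.toAbVar d lam) ∈ LL A n s H Z ∧ mtQ (tW A.toAbVar d lam) ∈ LL A n s H Z := by
  have hLg := gg_Lg hpt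
  obtain ⟨u⟩ := main2 hLg hu
  obtain ⟨W, hW, hW1, hW2⟩ := Pool.Agent.R917.DT.weight hpt
  have hJN : (tJ A.toAbVar d lam).1 ∈ A.NA := A.MA_le_NA (A.J_mem (fr lam))
  have hW0 : (tW A.toAbVar d lam).1 ∈ A.NA := A.NA.zero_mem
  have key : ∀ T : Tup A.toAbVar n s, T.1 ∈ A.NA →
      (∀ L ∈ gg A.toAbVar n s H, L.1 = 0 → br T L ∈ gg A.toAbVar n s H) →
      ∀ N ∈ sQ A n s H, mtQ T * N - N * mtQ T ∈ sQ A n s H := by
    rintro T hT hTb _ ⟨L, hL, hL1, rfl⟩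
    have h1 := hTb L hL hL1
    have h2 : mtQ T * mtQ L - mtQ L * mtQ T = mtQ (-br T L) := by
      have e1 : mtQ (br T L) = mtQ L * mtQ T - mtQ T * mtQ L :=
        mtQ_br (A.NA_skew hT) (A.NA_skew hL.1)
      have e2 : mtQ (-br T L) + mtQ (br T L) = 0 := by
        rw [← mtQ_add, neg_add_cancel, mtQ_zero]
      rw [eq_neg_of_add_eq_zero_left e2, e1, neg_sub]
    rw [h2]
    refine ⟨-br T L, Submodule.neg_mem _ h1, ?_, rfl⟩
    change -(T.1 * L.1 - L.1 * T.1) = 0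
    rw [hL1, mul_zero, zero_mul, sub_zero, neg_zero]
  refine ⟨⟨⟨_, hJ (fr lam), rfl⟩, key _ hJN fun L hL h1 => br_tJ hLg u hL h1 lam⟩,
    ⟨⟨_, Z.zero_mem, rfl⟩, key _ hW0 fun L hL _ =>
      hLg.br _ (u.tW_mem hLg hd ⟨W, hW, hW1, hW2⟩ lam) _ hL⟩⟩

/-- A complex matrix is in the span if its components are in the subspace. -/
theorem mem_span_of_comp {B : Type} [Fintype B] [DecidableEq B]
    {L : Submodule ℚ (Matrix B B ℚ)} {X : Matrix B B ℂ}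
    (h : ∀ lam : ℂ →ₗ[ℚ] ℚ, X.map lam ∈ L) :
    X ∈ Submodule.span ℂ {N : Matrix B B ℂ | ∃ M ∈ L, N = cqm M} := by
  obtain ⟨s, hs⟩ := mat_comp X
  rw [hs]
  exact Submodule.sum_mem _ fun b _ => Submodule.smul_mem _ _
    (Submodule.subset_span ⟨_, h _, rfl⟩)

/-- The components of the complex structure and of the weight. -/
theorem comp_tJ (lam : ℂ →ₗ[ℚ] ℚ) : (XJ A.toAbVar d).map lam = mtQ (tJ A.toAbVar d lam) := by
  apply cqm_inj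
  rw [← map_lamF, ← mt_tJ]
  rfl

theorem comp_tW (lam : ℂ →ₗ[ℚ] ℚ) : (XW A.toAbVar d).map lam = mtQ (tW A.toAbVar d lam) := by
  apply cqm_inj
  rw [← map_lamF, ← mt_tW]
  rfl

end One

end Pool.Agent.N208.OU
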