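import Pool.Agent.N208.OU.Der
import Pool.Agent.R917.DT.Stb

set_option autoImplicit false
set_option linter.unusedSectionVars false

/-!
# Factors of abelian varieties with a unitary part and a rigid centre are determined
-/

open Module Function TensorProduct Matrix

noncomputable section

namespace Pool.Agent.N208.OU

open Pool.Agent.Y102 Pool.Agent.W516.DR Pool.Agent.H204R3.GP Pool.Agent.W516.KC
  Pool.Agent.H204R3.SP Pool.Agent.TH119.MX Pool.Agent.R917 Pool.Agent.N208.AM Pool.Agent.N208.AD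
  Pool.Agent.N208.BT Pool.Agent.N208.CT Pool.Agent.R917.DT

variable {g g' : ℕ} {A : AbVar g} {C : AbVar g'} {f : A.H1 →ₗ[ℚ] C.H1} {p : C.H1 →ₗ[ℚ] A.H1}

theorem Phi_hB {P : (Fin g' → ℂ) →ₗ[ℂ] (Fin g → ℂ)} (hP : ∀ w, P (C.per w) = A.per (p w))
    (a : Fin (2 * g)) (i : Fin 1) (y : Fin g' → ℂ) :
    C.Phi (hB p a i) (fun _ => y) = A.lam.repr (P y) a := by
  have h1 : C.Phi (hB p a i) = MultilinearMap.ofSubsingleton ℝ (Fin g' → ℂ) ℝ (0 : Fin 1)
      ((A.lam.coord a).comp (P.restrictScalars ℝ)) := by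
    refine ext_lam_multi C fun v => ?_
    rw [C.Phi_per]
    change ((hB p a i v : ℚ) : ℝ) = A.lam.repr (P (C.per (v 0))) a
    rw [hP, A.repr_per]
    rfl
  rw [h1]
  rfl

theorem rel_pull (h : Fac A C f p) {P : (Fin g' → ℂ) →ₗ[ℂ] (Fin g → ℂ)}
    (hP : ∀ w, P (C.per w) = A.per (p w)) {F : (Fin g → ℂ) →ₗ[ℂ] (Fin g' → ℂ)}
    (hF : ∀ w, F (A.per w) = C.per (f w)) {Y : Module.End ℝ (Fin g' → ℂ)}
    {N : Matrix (Fin (2 * g)) (Fin (2 * g)) ℝ} (hY : RelR (hB p) Y N) (x : Fin g → ℂ)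
    (a : Fin (2 * g)) : A.lam.repr (P (Y (F x))) a = ∑ b, N b a * A.lam.repr x b := by
  have hPF : ∀ x, P (F x) = x := by
    have h1 : (P.comp F).restrictScalars ℝ = LinearMap.id := by
      refine A.lam.ext fun j => ?_
      have h2 : A.lam j = A.per (A.bas j) := (A.per_bas j).symm
      rw [h2]
      change P (F (A.per (A.bas j))) = A.per (A.bas j)
      rw [hF, hP, h.pf]
    exact fun x => LinearMap.congr_fun h1 x
  have h1 := congrArg (fun φ : MultilinearMap ℝ (fun _ : Fin 1 => Fin g' → ℂ) ℝ =>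
    φ (fun _ => F x)) (hY a 0)
  change dact Y (C.Phi (hB p a 0)) (fun _ => F x) =
    (∑ b, N b a • C.Phi (hB p b 0)) (fun _ => F x) at h1
  rw [dact_apply, _root_.sum_apply] at h1
  change ∑ k : Fin 1, C.Phi (hB p a 0) (update (fun _ => F x) k (Y (F x))) = _ at h1
  have h2 : ∀ k : Fin 1, update (fun _ : Fin 1 => F x) k (Y (F x)) = fun _ => Y (F x) := by
    intro k
    funext l
    rw [Subsingleton.elim l k, update_self]
  rw [Finset.sum_congr rfl fun k _ => by rw [h2 k], Finset.sum_const, Finset.card_univ,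
    Fintype.card_fin, one_smul, Phi_hB hP] at h1
  rw [h1]
  refine Finset.sum_congr rfl fun b _ => ?_
  rw [_root_.smul_apply, Phi_hB hP, smul_eq_mul, hPF]

/-- The complex structure of the factor. -/
theorem NR_JJ (h : Fac A C f p) {N : Matrix (Fin (2 * g)) (Fin (2 * g)) ℝ}
    (hN : RelR (hB p) AbVar.JJ N) : NR A AbVar.JJ N := by
  obtain ⟨P, hP⟩ := h.hp.tangent
  obtain ⟨F, hF⟩ := h.hf.tangent
  intro x a
  rw [← rel_pull h hP hF hN x a]
  have hPF : ∀ x, P (F x) = x := by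
    have h1 : (P.comp F).restrictScalars ℝ = LinearMap.id := by
      refine A.lam.ext fun j => ?_
      have h2 : A.lam j = A.per (A.bas j) := (A.per_bas j).symm
      rw [h2]
      change P (F (A.per (A.bas j))) = A.per (A.bas j)
      rw [hF, hP, h.pf]
    exact fun x => LinearMap.congr_fun h1 x
  have h5 : P (Complex.I • F x) = Complex.I • P (F x) := P.map_smul _ _
  rw [AbVar.JJ_apply, AbVar.JJ_apply, h5, hPF]

/-- The restriction of the rational elements. -/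
theorem NR_rs (h : Fac A C f p) {X : Module.End ℚ C.H1}
    {M : Matrix (Fin (2 * g)) (Fin (2 * g)) ℚ} (hM : Rel (hB p) X M) :
    NR A (A.ext (rs f p X)) (rq M) := by
  obtain ⟨P, hP⟩ := h.hp.tangent
  obtain ⟨F, hF⟩ := h.hf.tangent
  intro x a
  have h1 := rel_pull h hP hF hM.real x a
  refine Eq.trans ?_ h1
  congr 2
  have h2 : (A.ext (rs f p X) : (Fin g → ℂ) →ₗ[ℝ] (Fin g → ℂ)) =
      (P.restrictScalars ℝ).comp ((C.ext X).comp (F.restrictScalars ℝ)) := by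
    refine A.lam.ext fun j => ?_
    have h3 : A.lam j = A.per (A.bas j) := (A.per_bas j).symm
    rw [h3, A.ext_apply]
    change _ = P (C.ext X (F (A.per (A.bas j))))
    rw [hF, C.ext_apply, hP, rs_apply]
  exact LinearMap.congr_fun h2 x

/-- The real span of the restrictions. -/
theorem exists_NR (h : Fac A C f p) {𝔥 : Submodule ℚ (Module.End ℚ A.H1)}
    {𝔮 : Submodule ℚ (Module.End ℚ C.H1)} (hq : ∀ X ∈ 𝔮, rs f p X ∈ 𝔥)
    {N : Matrix (Fin (2 * g)) (Fin (2 * g)) ℝ}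
    (hN : N ∈ spR (hB p) (𝔮 : Set (Module.End ℚ C.H1))) :
    ∃ Y ∈ spE A (𝔥 : Set (Module.End ℚ A.H1)), NR A Y N := by
  induction hN using Submodule.span_induction with
  | mem N hN =>
    obtain ⟨X, hX, M, hM, rfl⟩ := hN
    exact ⟨_, mem_spE (S := (𝔥 : Set (Module.End ℚ A.H1))) (hq X hX), NR_rs h hM⟩
  | zero => exact ⟨0, Submodule.zero_mem _, NR.zero⟩
  | add a b _ _ ha hb =>
    obtain ⟨Y, h1, h2⟩ := ha
    obtain ⟨Y', h1', h2'⟩ := hb
    exact ⟨Y + Y', Submodule.add_mem _ h1 h1', h2.add h2'⟩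
  | smul c a _ ha =>
    obtain ⟨Y, h1, h2⟩ := ha
    exact ⟨c • Y, Submodule.smul_mem _ c h1, h2.smul c⟩

theorem NR_mul {Y Y' : Module.End ℝ (Fin g → ℂ)} {N N' : Matrix (Fin (2 * g)) (Fin (2 * g)) ℝ}
    (h : NR A Y N) (h' : NR A Y' N') : NR A (Y * Y') (N' * N) := by
  intro x a
  rw [Module.End.mul_apply, h]
  have h1 : ∀ b, N b a * A.lam.repr (Y' x) b = ∑ c, N' c b * N b a * A.lam.repr x c := by
    intro b
    rw [h', Finset.mul_sum]
    exact Finset.sum_congr rfl fun c _ => by ring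
  rw [Finset.sum_congr rfl fun b _ => h1 b, Finset.sum_comm]
  refine Finset.sum_congr rfl fun c _ => ?_
  rw [Matrix.mul_apply, Finset.sum_mul]

theorem NR_uniq {Y : Module.End ℝ (Fin g → ℂ)} {N N' : Matrix (Fin (2 * g)) (Fin (2 * g)) ℝ}
    (h : NR A Y N) (h' : NR A Y N') : N = N' := by
  ext c a
  have h1 : ∀ M : Matrix (Fin (2 * g)) (Fin (2 * g)) ℝ,
      ∑ b, M b a * A.lam.repr (A.lam c) b = M c a := by
    intro M
    rw [Finset.sum_eq_single c]
    · rw [A.lam.repr_self, Finsupp.single_eq_same, mul_one]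
    · intro b _ hb
      rw [A.lam.repr_self, Finsupp.single_eq_of_ne hb, mul_zero]
    · intro h0
      exact absurd (Finset.mem_univ c) h0
  rw [← h1 N, ← h1 N', ← h, ← h']

/-- The condition on the domain, in terms of endomorphisms. -/
theorem domU_of (h : Fac A C f p) {U : Set (Fin g' → ℂ)}
    (hD : ∀ q ∈ Submodule.span ℝ {q : Module.End ℝ (Fin g' → ℂ) × Module.End ℝ (Fin g → ℂ) |
        ∃ X ∈ der C.NA, q = (C.ext X, A.ext (p.comp (X.comp f)))},
      (∀ u ∈ U, q.1 u = 0) → ∀ x, q.2 (Complex.I • x) = Complex.I • q.2 x)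
    {N : Matrix (Fin (2 * g)) (Fin (2 * g)) ℝ} (hN : RelR (hB p) AbVar.JJ N) :
    DomU U (hB p) N := by
  have key : ∀ q ∈ pR (hB p) (der C.NA), ∃ Y : Module.End ℝ (Fin g → ℂ),
      (q.1, Y) ∈ Submodule.span ℝ {q : Module.End ℝ (Fin g' → ℂ) × Module.End ℝ (Fin g → ℂ) |
        ∃ X ∈ der C.NA, q = (C.ext X, A.ext (p.comp (X.comp f)))} ∧ NR A Y q.2 := by
    intro q hq
    induction hq using Submodule.span_induction with
    | mem q hq =>
      obtain ⟨X, hX, M, hM, rfl⟩ := hq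
      exact ⟨A.ext (p.comp (X.comp f)), Submodule.subset_span ⟨X, hX, rfl⟩, NR_rs h hM⟩
    | zero => exact ⟨0, Submodule.zero_mem _, NR.zero⟩
    | add a b _ _ ha hb =>
      obtain ⟨Y, h1, h2⟩ := ha
      obtain ⟨Y', h1', h2'⟩ := hb
      exact ⟨Y + Y', Submodule.add_mem _ h1 h1', h2.add h2'⟩
    | smul c a _ ha =>
      obtain ⟨Y, h1, h2⟩ := ha
      exact ⟨c • Y, Submodule.smul_mem _ c h1, h2.smul c⟩
  intro q hq h0
  obtain ⟨Y, hY, hYN⟩ := key q hq
  have h1 := hD _ hY h0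
  have h2 : (Y * AbVar.JJ : Module.End ℝ (Fin g → ℂ)) = AbVar.JJ * Y := by
    refine LinearMap.ext fun x => ?_
    rw [Module.End.mul_apply, Module.End.mul_apply, AbVar.JJ_apply, AbVar.JJ_apply]
    exact h1 x
  have h3 := NR_mul hYN (NR_JJ h hN)
  rw [h2] at h3
  exact (NR_uniq h3 (NR_mul (NR_JJ h hN) hYN)).symm

/-- **Factors of abelian varieties with a rigid centre.** -/
theorem detJ_of (h : Fac A C f p) (hrig : Rigid C) {U : Set (Fin g' → ℂ)} (hr : RPart C U)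
    (hα : ∀ N, RelR (hB p) (AbVar.JJ : (Fin g' → ℂ) →ₗ[ℝ] (Fin g' → ℂ)) N → DomU U (hB p) N) :
    DetJ A := by
  intro 𝔥 hle hbr h0 hRC r
  have hF := h.qq_full hbr h0
  have hC := CN_le hF (h.qq_RC hRC) hrig
  obtain ⟨N, hN, -⟩ := exists_J (mot h)
  have h1 := N_memC (mot h) hF hC hr hN (hα N hN)
  obtain ⟨Y, hY, hYN⟩ := exists_NR h (𝔥 := 𝔥) (𝔮 := Fac.qq f p 𝔥) (fun X hX => hX.2) h1
  have h2 := cmpE_mem hY r
  rwa [hYN.uniq (NR_JJ h hN)] at h2

end Pool.Agent.N208.OU
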