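import Pool.Agent.N208.OU.Defs
import Pool.Agent.N208.OU.Drv
import Pool.Agent.N208.BT.PDiv
import Pool.Agent.N208.BT.All

set_option autoImplicit false

/-!
# 1-motives over abelian varieties of unitary type: proofs
-/

open Module Matrix Pool.Agent.Y102 Pool.Agent.R917.OM Pool.Agent.R917.BX Pool.Agent.W516.DR
  Pool.Agent.H204R3.GP Pool.Agent.N208.UR

noncomputable section

namespace Pool.Agent.N208.OneM

section Motives

variable {g n s : ℕ} (A : AbVarG g)


/-- the data of the 1-motive -/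
def dat (u : Fin n → Fin g → ℂ) (v : Fin s → Fin g → ℂ) (ℓ : Fin n → Fin s → ℂ) : Dt g n s where
  P := Sum.elim (fun i => Sum.elim (u i) (fun k => second A k (u i)))
    (fun l => Sum.elim (v l) (fun k => second A k (v l)))
  ℓ := ℓ

theorem per_eb (j : Fin (2 * g)) (k : Fin g) : A.dR (Sum.inl k) (eb A.toAbVar j) = A.lam j k := by
  change A.per (Pi.single j 1) k = _
  unfold AbVar.per
  rw [Fintype.linearCombination_apply_single, one_smul]

theorem eta_eb (j : Fin (2 * g)) (k : Fin g) : A.dR (Sum.inr k) (eb A.toAbVar j) = A.η j k := by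
  change A.eta (Pi.single j 1) k = _
  unfold AbVar.eta
  rw [Fintype.linearCombination_apply_single, one_smul]

theorem periodMatrix_eq (u : Fin n → Fin g → ℂ) (v : Fin s → Fin g → ℂ)
    (ℓ : Fin n → Fin s → ℂ) : periodMatrix A u v ℓ = pmat A.toAbVar (dat A u v ℓ) := by
  ext r c
  rcases r with j | l | i <;> rcases c with (k | k) | l' | i' <;>
    simp [periodMatrix, pmat, dat, per_eb, eta_eb, thd, tau]

end Motives

section Lev

variable {g n s : ℕ}

theorem single_row (M : Matrix (Betti g n s) (Betti g n s) ℂ) (r : Betti g n s) :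
    (Pi.single r (1 : ℂ) : Betti g n s → ℂ) ᵥ* M = M r := by
  rw [Matrix.single_one_vecMul]
  rfl

/-- The elements of level zero, in terms of blocks. -/
theorem fl_zero_of_same {c : ℂ} (hc : c ≠ 0) {M M' : Matrix (Betti g n s) (Betti g n s) ℂ}
    (h : SameGraded c M M') (hM : M ∈ Fl (lev g n s) 0) : M' ∈ Fl (lev g n s) 0 := by
  intro r r' hr
  have h0 := hM r r' hr
  rcases r with j | l | i
  · rcases r' with j' | l' | i'
    · simp [lev] at hr
    · simp [lev] at hr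
    · have h1 := (h.weight_one (Pi.single (Sum.inl j) 1) fun i => by
        rw [Pi.single_eq_of_ne (by simp)]).2 i'
      rw [single_row, single_row, Pi.sub_apply, Pi.smul_apply, h0, zero_sub, neg_eq_zero,
        smul_eq_mul] at h1
      exact (mul_eq_zero.1 h1).resolve_left hc
  · have h1 := congrFun (h.weight_two (Pi.single (Sum.inr (Sum.inl l)) 1) ⟨fun j => by
      rw [Pi.single_eq_of_ne (by simp)], fun i => by
      rw [Pi.single_eq_of_ne (by simp)]⟩) r'
    rw [single_row, single_row, Pi.smul_apply, h0, smul_eq_mul] at h1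
    exact (mul_eq_zero.1 h1.symm).resolve_left (pow_ne_zero 2 hc)
  · simp [lev] at hr

/-- the weights -/
def wt (g n s : ℕ) (c : ℂ) : Matrix (Betti g n s) (Betti g n s) ℂ :=
  Matrix.diagonal fun r => c ^ lev g n s r

theorem fl_one_of_same {c : ℂ} {M M' : Matrix (Betti g n s) (Betti g n s) ℂ}
    (h : SameGraded c M M') (hM : M ∈ Fl (lev g n s) 0) (hM' : M' ∈ Fl (lev g n s) 0) :
    M - M' * wt g n s c ∈ Fl (lev g n s) 1 := by
  intro r r' hr
  rw [Matrix.sub_apply, wt, Matrix.mul_diagonal]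
  by_cases hr' : lev g n s r' < lev g n s r + 0
  · rw [hM r r' hr', hM' r r' hr', zero_mul, sub_zero]
  · have hr2 : lev g n s r' = lev g n s r := by omega
    rw [hr2]
    rcases r with j | l | i
    · rcases r' with j' | l' | i'
      · have h1 := (h.weight_one (Pi.single (Sum.inl j) 1) fun i => by
          rw [Pi.single_eq_of_ne (by simp)]).1 j'
        rw [single_row, single_row, Pi.sub_apply, Pi.smul_apply, smul_eq_mul] at h1
        have h2 : lev g n s (Sum.inl j) = 1 := rfl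
        rw [h2, pow_one]
        linear_combination h1
      · simp [lev] at hr2
      · simp [lev] at hr2
    · have h1 := congrFun (h.weight_two (Pi.single (Sum.inr (Sum.inl l)) 1) ⟨fun j => by
        rw [Pi.single_eq_of_ne (by simp)], fun i => by
        rw [Pi.single_eq_of_ne (by simp)]⟩) r'
      rw [single_row, single_row, Pi.smul_apply, smul_eq_mul] at h1
      have h2 : lev g n s (Sum.inr (Sum.inl l)) = 2 := rfl
      rw [h2, h1]
      ring
    · rcases r' with j' | l' | i'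
      · simp [lev] at hr2
      · simp [lev] at hr2
      · have h1 := h.weight_zero (Pi.single (Sum.inr (Sum.inr i)) 1) i'
        rw [single_row, single_row, Pi.sub_apply] at h1
        have h2 : lev g n s (Sum.inr (Sum.inr i)) = 0 := rfl
        rw [h2, pow_zero, mul_one]
        exact h1

end Lev

section Main

variable {g n s : ℕ} (A : AbVarG g)

/-- The exponential of the operators of the Hodge structure. -/
theorem deligne_exp {u : Fin n → Fin g → ℂ} {v : Fin s → Fin g → ℂ} {ℓ : Fin n → Fin s → ℂ} {z : ℂ}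
    (hz : z ≠ 0) {y : Matrix (Betti g n s) (Betti g n s) ℂ}
    (hy : y = NormedSpace.exp (((Complex.log z).re : ℂ) • XW A.toAbVar (dat A u v ℓ) +
      ((Complex.log z).im : ℂ) • XJ A.toAbVar (dat A u v ℓ))) : IsDeligne A u v ℓ z y := by
  have hM : ∀ (v' : Betti g n s → ℂ) (a b : ℂ), v' ᵥ* XW A.toAbVar (dat A u v ℓ) = a • v' →
      v' ᵥ* XJ A.toAbVar (dat A u v ℓ) = b • v' →
      v' ᵥ* y = Complex.exp ((Complex.log z).re * a + (Complex.log z).im * b) • v' := by
    intro v' a b ha hb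
    rw [hy]
    refine vecMul_exp ?_
    rw [Matrix.vecMul_add, Matrix.vecMul_smul, Matrix.vecMul_smul, ha, hb, smul_smul, smul_smul,
      ← add_smul]
  have hlog : ((Complex.log z).re : ℂ) + (Complex.log z).im * Complex.I = Complex.log z :=
    Complex.re_add_im _
  have hexp := Complex.exp_log hz
  have hconj : Complex.exp ((starRingEnd ℂ) (Complex.log z)) = (starRingEnd ℂ) z := by
    rw [Complex.exp_conj, hexp]
  have hlog' : ((Complex.log z).re : ℂ) - (Complex.log z).im * Complex.I =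
      (starRingEnd ℂ) (Complex.log z) := by
    apply Complex.ext <;> simp
  have hF : ∀ a, F0 A u v ℓ a → (∀ k, i1 A.toAbVar (dat A u v ℓ) a k = 0) ∧
      ∀ l, i3 A.toAbVar (dat A u v ℓ) a l = 0 := by
    rintro a ⟨ha1, ha2⟩
    rw [periodMatrix_eq] at ha1 ha2
    exact ⟨ha1, ha2⟩
  refine ⟨fun a b w ha hb hw hab => ?_, fun a ha ha1 => ?_, fun a ha ha1 => ?_,
    fun a ha => ?_⟩
  · obtain ⟨e1, e2⟩ := eig_0 (A := A.toAbVar) (d := dat A u v ℓ) (v := a) (f := b)
      (fun j => by rw [hab, Pi.add_apply, hw.1, add_zero]; rfl)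
      (fun i => by rw [hab, Pi.add_apply, hw.2, add_zero]; rfl) (hF a ha).1 (hF a ha).2 (hF b hb).1
    have h3 := hM a 0 0 e1 e2
    rwa [mul_zero, mul_zero, add_zero, Complex.exp_zero, one_smul] at h3
  · obtain ⟨e1, e2⟩ := eig_m (A := A.toAbVar) (d := dat A u v ℓ) (v := a) ha1 (hF a ha).1
      (hF a ha).2
    have h3 := hM a 1 (-Complex.I) (by rw [one_smul]; exact e1) e2
    rw [h3, ← hconj, ← hlog']
    congr 2
    ring
  · obtain ⟨e1, e2⟩ := eig_p (A := A.toAbVar) (d := dat A u v ℓ) (v := bar a) (w := a)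
      (fun r => rfl) ha1 (hF a ha).1 (hF a ha).2
    have h3 := hM (bar a) 1 Complex.I (by rw [one_smul]; exact e1) e2
    rw [h3, mul_one, hlog, hexp]
  · obtain ⟨e1, e2⟩ := eig_t (A := A.toAbVar) (d := dat A u v ℓ) (v := a) ha.1 ha.2
    have h3 := hM a 2 0 e1 e2
    rw [h3]
    congr 1
    rw [mul_zero, add_zero]
    have h4 : z * (starRingEnd ℂ) z =
        Complex.exp (Complex.log z) * Complex.exp ((starRingEnd ℂ) (Complex.log z)) := by
      rw [hexp, hconj]
    rw [h4, ← Complex.exp_add]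
    congr 1
    linear_combination hlog + hlog'

end Main

section UnitaryProofs

variable {g : ℕ} (A : AbVar g)

theorem alg_eq (B₁ : Subalgebra ℚ (EndQ A)) {X : EndQ A} :
    X ∈ Alg A (B₁ : Set (EndQ A)) ↔ X ∈ B₁ := by
  unfold Alg
  rw [Algebra.adjoin_eq]
  rfl

theorem comm_iff (X : EndQ A) : Commutes A X ↔ X ∈ N208.BT.CB A :=
  ⟨fun h P hP => h P (A.mem_EA.1 hP), fun h P hP => h P (A.mem_EA.2 hP)⟩

theorem deg_eq {z : EndQ A} {p : ℕ} (h : HasDegree A z p) :
    finrank ℚ ((N208.BT.CB A).map (LinearMap.mulRight ℚ z)) =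
      p ^ 2 * finrank ℚ ((Algebra.adjoin ℚ {z}).toSubmodule.map (LinearMap.mulRight ℚ z)) := by
  have e1 : Submodule.span ℚ {Y : EndQ A | ∃ X, Commutes A X ∧ Y = X * z} =
      (N208.BT.CB A).map (LinearMap.mulRight ℚ z) := by
    refine le_antisymm (Submodule.span_le.2 ?_) ?_
    · rintro _ ⟨X, hX, rfl⟩
      exact Submodule.mem_map_of_mem (f := LinearMap.mulRight ℚ z) ((comm_iff A X).1 hX)
    · rintro _ ⟨X, hX, rfl⟩
      exact Submodule.subset_span ⟨X, (comm_iff A X).2 hX, rfl⟩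
  have e2 : Submodule.span ℚ {Y : EndQ A | ∃ X q, IsPoly A z X q ∧ Y = X * z} =
      (Algebra.adjoin ℚ {z}).toSubmodule.map (LinearMap.mulRight ℚ z) := by
    refine le_antisymm (Submodule.span_le.2 ?_) ?_
    · rintro _ ⟨X, q, hX, rfl⟩
      have h1 : X * z = LinearMap.mulRight ℚ z (Polynomial.aeval z q) := hX
      rw [h1]
      refine Submodule.mem_map_of_mem (f := LinearMap.mulRight ℚ z) ?_
      exact Polynomial.aeval_mem_adjoin_singleton ℚ z
    · rintro _ ⟨X, hX, rfl⟩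
      have hX' : X ∈ Algebra.adjoin ℚ {z} := hX
      rw [Algebra.adjoin_singleton_eq_range_aeval] at hX'
      obtain ⟨q, hq⟩ := hX'
      refine Submodule.subset_span ⟨X, q, ?_, rfl⟩
      have h2 : Polynomial.aeval z q = X := hq
      show X * z = Polynomial.aeval z q * z
      rw [h2]
  have h1 := h
  unfold HasDegree Set.finrank at h1
  rw [e1, e2] at h1
  exact h1

theorem UnitaryPart.toRPart {z : EndQ A} {S : Finset ℝ} (h : UnitaryPart A z S) :
    N208.BT.RPart A (N208.BT.US A z S) := by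
  rcases h.type with h1 | ⟨p, h1⟩
  · refine N208.BT.rpart (A := A) (z := z) (Sg := S) ⟨fun a ha => ?_, fun a ha => (h.disjoint a ha).2, ?_⟩
    · exact
        { mem := A.mem_EA.2 h.part.endo
          cen := fun P hP => h.part.central P (A.mem_EA.1 hP)
          skew := h.part.skew
          gen := fun P hP hc => h.part.generates P (A.mem_EA.1 hP) fun Q hQ => hc Q (A.mem_EA.2 hQ)
          ne := (h.disjoint a ha).1
          ex := h1.eigen a ha
          simple := fun x y hx h2 h3 => by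
            refine (Submodule.span_mono ?_) (h1.simple a ha x y hx h2 h3)
            rintro w ⟨P, hP, rfl⟩
            exact ⟨P, A.mem_EA.2 hP, rfl⟩ }
    · intro B₁ h2 h3 a b ha hb hab
      obtain ⟨q, X, hX, h4⟩ := h1.separated a b ha hb hab B₁ (fun X hX => (comm_iff A X).2 (h2 X hX))
        fun X hX => h3 X ((comm_iff A X).1 hX)
      exact ⟨q, X, (alg_eq A B₁).1 hX, h4⟩
  · refine N208.BT.rpartD (A := A) (z := z) (Sg := S) (p := p)
      { mem := A.mem_EA.2 h.part.endo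
        cen := fun P hP => h.part.central P (A.mem_EA.1 hP)
        skew := h.part.skew
        gen := fun P hP hc => h.part.generates P (A.mem_EA.1 hP) fun Q hQ => hc Q (A.mem_EA.2 hQ)
        ne := fun a ha => (h.disjoint a ha).1
        e1 := fun a ha => (h1.indefinite a ha).1
        e2 := fun a ha => (h1.indefinite a ha).2
        disj := fun a ha => (h.disjoint a ha).2
        sep := fun B₁ h2 h3 a b ha hb hab hab' => by
          obtain ⟨q, X, hX, h4⟩ := h1.separated a b ha hb hab hab' B₁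
            (fun X hX => (comm_iff A X).2 (h2 X hX)) fun X hX => h3 X ((comm_iff A X).1 hX)
          exact ⟨q, X, (alg_eq A B₁).1 hX, h4⟩
        pd := ?_ }
    refine ⟨h1.prime, fun X hX h0 v hv => ?_, deg_eq A h1.degree⟩
    rcases h1.division X ((comm_iff A X).2 hX) with h2 | h2
    · exact h2 v hv
    · exact absurd (LinearMap.ext fun v => h2 v) h0

theorem RigidCentre.toRigid (hz : RigidCentre A) : N208.CT.Rigid A := by
  intro X hX hg Y hY
  refine dom_of_matrix (hz X ⟨hX.1, hX.2⟩ (fun T hT hTX Z hZ => ?_) Y ⟨hY.1, hY.2⟩)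
  exact hg T hT hTX Z ⟨hZ.1, hZ.2⟩

end UnitaryProofs

section Lie

variable {g n s : ℕ} (A : AbVarG g)

/-- The operators of the Hodge structure. -/
theorem lie_deligne {u : Fin n → Fin g → ℂ} {v : Fin s → Fin g → ℂ} {ℓ : Fin n → Fin s → ℂ} (w : ℂ) :
    IsLieDeligne A u v ℓ w ((w.re : ℂ) • XW A.toAbVar (dat A u v ℓ) +
      (w.im : ℂ) • XJ A.toAbVar (dat A u v ℓ)) := by
  have hM : ∀ (v' : Betti g n s → ℂ) (a b : ℂ), v' ᵥ* XW A.toAbVar (dat A u v ℓ) = a • v' →
      v' ᵥ* XJ A.toAbVar (dat A u v ℓ) = b • v' →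
      v' ᵥ* ((w.re : ℂ) • XW A.toAbVar (dat A u v ℓ) +
        (w.im : ℂ) • XJ A.toAbVar (dat A u v ℓ)) = (w.re * a + w.im * b) • v' := by
    intro v' a b ha hb
    rw [Matrix.vecMul_add, Matrix.vecMul_smul, Matrix.vecMul_smul, ha, hb, smul_smul, smul_smul,
      ← add_smul]
  have hw : (w.re : ℂ) + w.im * Complex.I = w := Complex.re_add_im _
  have hw' : (w.re : ℂ) - w.im * Complex.I = (starRingEnd ℂ) w := by
    apply Complex.ext <;> simp
  have hF : ∀ a, F0 A u v ℓ a → (∀ k, i1 A.toAbVar (dat A u v ℓ) a k = 0) ∧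
      ∀ l, i3 A.toAbVar (dat A u v ℓ) a l = 0 := by
    rintro a ⟨ha1, ha2⟩
    rw [periodMatrix_eq] at ha1 ha2
    exact ⟨ha1, ha2⟩
  refine ⟨fun a b t ha hb hw hab => ?_, fun a ha ha1 => ?_, fun a ha ha1 => ?_,
    fun a ha => ?_⟩
  · obtain ⟨e1, e2⟩ := eig_0 (A := A.toAbVar) (d := dat A u v ℓ) (v := a) (f := b)
      (fun j => by rw [hab, Pi.add_apply, hw.1, add_zero]; rfl)
      (fun i => by rw [hab, Pi.add_apply, hw.2, add_zero]; rfl) (hF a ha).1 (hF a ha).2 (hF b hb).1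
    have h3 := hM a 0 0 e1 e2
    rwa [mul_zero, mul_zero, add_zero, zero_smul] at h3
  · obtain ⟨e1, e2⟩ := eig_m (A := A.toAbVar) (d := dat A u v ℓ) (v := a) ha1 (hF a ha).1
      (hF a ha).2
    have h3 := hM a 1 (-Complex.I) (by rw [one_smul]; exact e1) e2
    rw [h3, ← hw']
    congr 1
    ring
  · obtain ⟨e1, e2⟩ := eig_p (A := A.toAbVar) (d := dat A u v ℓ) (v := bar a) (w := a)
      (fun r => rfl) ha1 (hF a ha).1 (hF a ha).2
    have h3 := hM (bar a) 1 Complex.I (by rw [one_smul]; exact e1) e2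
    rw [h3, mul_one, hw]
  · obtain ⟨e1, e2⟩ := eig_t (A := A.toAbVar) (d := dat A u v ℓ) (v := a) ha.1 ha.2
    have h3 := hM a 2 0 e1 e2
    rw [h3]
    congr 1
    rw [← hw', mul_zero, add_zero]
    linear_combination hw

end Lie

section Final

variable {g n s : ℕ} {A : AbVarG g} {u : Fin n → Fin g → ℂ} {v : Fin s → Fin g → ℂ}
  {ℓ : Fin n → Fin s → ℂ} {G : Subgroup (GL (Betti g n s) ℂ)}

theorem main_one (hM : IsOneMotive A u v ℓ) (hG : IsAlgebraicSubgroup G)
    (hP : ContainsPeriods A u v ℓ G) (x : GL (Betti g n s) ℂ) (hx : x ∈ mumfordTate A u v ℓ)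
    (y : GL (Betti g n s) ℂ) (hy : y ∈ G) (c : ℂ) (hc : c ≠ 0)
    (hxy : SameGraded c (x : Matrix (Betti g n s) (Betti g n s) ℂ)
      (y : Matrix (Betti g n s) (Betti g n s) ℂ)) : x ∈ G := by
  obtain ⟨T, hT, q, hq, hqT⟩ := hP
  rw [periodMatrix_eq] at hqT
  have hpt := ptM_of hG hT hq hqT
  obtain ⟨K₁, hK₁, hrat⟩ := exists_rat_mult A (pt (dat A u v ℓ)) (by
    rintro (i | l)
    · exact Or.inl (hM.point i)
    · exact Or.inl (hM.dual l))
  obtain ⟨Wq, hW1, hW2, hXW, hK⟩ := exists_W hpt ⟨hM.point, hM.neg, hM.sub, hM.log⟩ hrat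
  -- the Mumford-Tate group is contained in the normalizer
  have hxK : x ∈ KK (lev g n s) {M | ∃ x ∈ G, (x : Matrix (Betti g n s) (Betti g n s) ℂ) = M}
      (cqm Wq) := by
    have h1 : mumfordTate A u v ℓ ≤ KK (lev g n s)
        {M | ∃ x ∈ G, (x : Matrix (Betti g n s) (Betti g n s) ℂ) = M} (cqm Wq) := by
      refine sInf_le ⟨KK_alg hpt.grp Wq, fun z hz => ?_⟩
      exact ⟨_, hK _ _ (Pool.Agent.N208.AM.eG _) rfl, deligne_exp A hz rfl⟩
    exact h1 hx
  -- the weight cocharacter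
  obtain ⟨w, hw, hwe⟩ := Pool.Agent.R917.exp_mem hpt.grp fun k => (hXW k).smul (Complex.log c)
  have hw1 : (w : Matrix (Betti g n s) (Betti g n s) ℂ) - wt g n s c ∈ Fl (lev g n s) 1 := by
    rw [hwe]
    exact exp_weight hc (XW_sub _ _)
  have hy0 := fl_zero_of_same hc hxy hxK.1
  have h1 : (x : Matrix (Betti g n s) (Betti g n s) ℂ) - ((y * w : GL (Betti g n s) ℂ) :
      Matrix (Betti g n s) (Betti g n s) ℂ) ∈ Fl (lev g n s) 1 := by
    have h2 : (x : Matrix (Betti g n s) (Betti g n s) ℂ) - ((y * w : GL (Betti g n s) ℂ) :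
        Matrix (Betti g n s) (Betti g n s) ℂ) =
        ((x : Matrix (Betti g n s) (Betti g n s) ℂ) - y * wt g n s c) -
          (y : Matrix (Betti g n s) (Betti g n s) ℂ) * (w - wt g n s c) := by
      rw [Units.val_mul, Matrix.mul_sub]
      abel
    rw [h2]
    refine Submodule.sub_mem _ (fl_one_of_same hxy hxK.1 hy0) ?_
    have h3 := Fl_mul hy0 hw1
    rwa [zero_add] at h3
  obtain ⟨x', hx', hxx⟩ := main_KK hpt.grp lev_le hW1 hW2 hxK
    (show ((y * w : GL (Betti g n s) ℂ) : Matrix (Betti g n s) (Betti g n s) ℂ) ∈ _ from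
      ⟨y * w, mul_mem hy hw, rfl⟩) h1
  rw [← Units.ext hxx]
  exact hx'

variable {g' : ℕ} {C : AbVar g'} {f : A.toAbVar.H1 →ₗ[ℚ] C.H1} {p : C.H1 →ₗ[ℚ] A.toAbVar.H1}
  {z : EndQ C} {S : Finset ℝ}

theorem hfac (hF : IsFactor A.toAbVar C f p) : Pool.Agent.R917.DT.Fac A.toAbVar C f p :=
  ⟨⟨hF.inclusion.1, hF.inclusion.2⟩, ⟨hF.projection.1, hF.projection.2⟩, hF.split⟩

theorem hdom (hF : IsFactor A.toAbVar C f p) (hU : UnitaryPart C z S)
    (hD : DomainOf A.toAbVar C f p z S)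
    (N : Matrix (Fin (2 * g)) (Fin (2 * g)) ℝ)
    (hN : N208.AM.RelR (N208.OU.hB p) (AbVar.JJ : (Fin g' → ℂ) →ₗ[ℝ] (Fin g' → ℂ)) N) :
    N208.BT.DomU (N208.BT.US C z S) (N208.OU.hB p) N := by
  refine N208.OU.domU_of (hfac hF) (fun q hq h0 x => ?_) hN
  obtain ⟨k, c, X, hX⟩ := Submodule.mem_span_set'.1 hq
  choose Y hY hYe using fun j => (X j).2
  have h1 : ∀ y, q.1 y = ∑ j, c j • C.ext (Y j) y := by
    intro y
    rw [← hX, Prod.fst_sum, LinearMap.sum_apply]
    refine Finset.sum_congr rfl fun j _ => ?_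
    rw [hYe j]
    rfl
  have h2 : ∀ y, q.2 y = ∑ j, c j • A.ext (restr A.toAbVar C f p (Y j)) y := by
    intro y
    rw [← hX, Prod.snd_sum, LinearMap.sum_apply]
    refine Finset.sum_congr rfl fun j _ => ?_
    rw [hYe j]
    rfl
  rw [h2, h2]
  refine hD k c Y (fun j => ?_) (fun a ha y hy => ?_) x
  · refine (Submodule.span_mono ?_) (hY j)
    rintro _ ⟨X, hX, Y, hY, rfl⟩
    exact ⟨X, hX, Y, hY, rfl⟩
  · rw [← h1]
    refine h0 y ⟨a, ha, ?_⟩
    have hz : z ∈ C.EA := C.mem_EA.2 hU.part.endo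
    rcases hy with hy | hy
    · exact N208.BT.eig_mem_V0 hz rfl hy
    · exact N208.BT.eig_mem_V0 hz (by ring) hy

theorem main_three (hM : IsOneMotive A u v ℓ) (hG : IsAlgebraicSubgroup G)
    (hP : ContainsPeriods A u v ℓ G) (hF : IsFactor A.toAbVar C f p) (hU : UnitaryPart C z S)
    (hD : DomainOf A.toAbVar C f p z S) (hR : RigidCentre C) : mumfordTate A u v ℓ ≤ G := by
  obtain ⟨T, hT, q, hq, hqT⟩ := hP
  rw [periodMatrix_eq] at hqT
  have hpt := ptM_of hG hT hq hqT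
  obtain ⟨K₁, hK₁, hrat⟩ := exists_rat_mult A (pt (dat A u v ℓ)) (by
    rintro (i | l)
    · exact Or.inl (hM.point i)
    · exact Or.inl (hM.dual l))
  have hdet := N208.OU.detJ_of (hfac hF) (hR.toRigid C) (hU.toRPart C) (hdom hF hU hD)
  obtain ⟨h1, h2⟩ := Pool.Agent.R917.DT.hodge_stab6 hpt
    ⟨hM.point, hM.neg, hM.sub, hM.log⟩ hrat hdet
  refine sInf_le ⟨hG, fun z hz => ?_⟩
  obtain ⟨x, hx, hxe⟩ := Pool.Agent.R917.exp_mem hpt.grp fun k =>
    ((h2 k).smul ((Complex.log z).re : ℂ)).add ((h1 k).smul ((Complex.log z).im : ℂ))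
  exact ⟨x, hx, deligne_exp A hz hxe⟩

theorem main_two (hM : IsOneMotive A u v ℓ) (hG : IsAlgebraicSubgroup G)
    (hP : ContainsPeriods A u v ℓ G) (hF : IsFactor A.toAbVar C f p) (hU : UnitaryPart C z S)
    (hD : DomainOf A.toAbVar C f p z S) {Z : Matrix (Betti g n s) (Betti g n s) ℚ}
    (hZ : Z ∈ derived (mtLie A u v ℓ)) (t : ℂ) :
    IsIn G (NormedSpace.exp (t • cplx Z)) := by
  obtain ⟨T, hT, q, hq, hqT⟩ := hP
  rw [periodMatrix_eq] at hqT
  have hpt := ptM_of hG hT hq hqT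
  obtain ⟨K₁, hK₁, hrat⟩ := exists_rat_mult A (pt (dat A u v ℓ)) (by
    rintro (i | l)
    · exact Or.inl (hM.point i)
    · exact Or.inl (hM.dual l))
  have hLg := gg_Lg hpt
  have hfc := hfac hF
  obtain ⟨𝔮, h𝔮⟩ : ∃ 𝔮, 𝔮 = Pool.Agent.R917.DT.Fac.qq f p (aa (gg A.toAbVar n s
    {M | ∃ x ∈ G, (x : Matrix (Betti g n s) (Betti g n s) ℂ) = M})) := ⟨_, rfl⟩
  have hfull : C.Full 𝔮 := by
    rw [h𝔮]
    exact hfc.qq_full (fun X hX Y hY => hLg.full.br X hX Y hY) (fun D lam => ⟨_, hLg.per D lam, rfl⟩)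
  have hJ := N208.OU.ZZ_J hfc hfull (hU.toRPart C) (hdom hF hU hD)
  have hbr : ∀ x ∈ N208.OU.ZZ f p 𝔮, ∀ y ∈ N208.OU.ZZ f p 𝔮,
      x * y - y * x ∈ (Pool.Agent.Y102.der 𝔮).map (Pool.Agent.R917.DT.rs f p) :=
    fun x hx y hy => N208.OU.ZZ_br hfc hfull hx hy
  have hle : (Pool.Agent.Y102.der 𝔮).map (Pool.Agent.R917.DT.rs f p) ≤ N208.OU.ZZ f p 𝔮 := le_sup_right
  have hle' : (Pool.Agent.Y102.der 𝔮).map (Pool.Agent.R917.DT.rs f p) ≤ aa (gg A.toAbVar n s
      {M | ∃ x ∈ G, (x : Matrix (Betti g n s) (Betti g n s) ℂ) = M}) := by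
    rintro _ ⟨X, hX, rfl⟩
    have h1 := hfull.der_le hX
    rw [h𝔮] at h1
    exact h1.2
  have hNA := N208.OU.ZZ_NA hfc hfull
  -- the Lie algebra of the Mumford-Tate group is in the normalizer
  have h1 : mtLie A u v ℓ ≤ N208.OU.LL A n s
      {M | ∃ x ∈ G, (x : Matrix (Betti g n s) (Betti g n s) ℂ) = M} (N208.OU.ZZ f p 𝔮) := by
    refine sInf_le ⟨fun X hX Y hY => N208.OU.LL_brr hNA hX hY fun x hx y hy =>
      hle (hbr x hx y hy), fun w => ⟨_, ?_, lie_deligne A w⟩⟩
    have hc := fun lam => N208.OU.exists_LL hpt ⟨hM.point, hM.neg, hM.sub, hM.log⟩ hrat hJ lam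
    refine Submodule.add_mem _ (Submodule.smul_mem _ _ ?_) (Submodule.smul_mem _ _ ?_)
    · refine N208.OU.mem_span_of_comp fun lam => ?_
      rw [N208.OU.comp_tW]
      exact (hc lam).2
    · refine N208.OU.mem_span_of_comp fun lam => ?_
      rw [N208.OU.comp_tJ]
      exact (hc lam).1
  obtain ⟨W, hW, hW1, hW2⟩ := Pool.Agent.R917.DT.weight hpt
  have h2 : Z ∈ N208.OU.gQ A n s
      {M | ∃ x ∈ G, (x : Matrix (Betti g n s) (Betti g n s) ℂ) = M} := by
    unfold derived at hZ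
    refine (Submodule.span_le.2 ?_) hZ
    rintro _ ⟨X, hX, Y, hY, rfl⟩
    exact N208.OU.LL_gQ hLg hW hW1 hW2 hle' (N208.OU.LL_brr hNA (h1 hX) (h1 hY) hbr)
  obtain ⟨L, hL, rfl⟩ := h2
  exact Pool.Agent.R917.exp_mem hpt.grp fun k => (hL.2 k).smul t

end Final

end Pool.Agent.N208.OneM
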